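import Pool.Agent.Helper99.ML.MU

/-!
# Project ML, block PI: the group of the classes of order a power of `ℓ`
-/

set_option autoImplicit false

namespace Pool.Agent.ML

open VC IntermediateField NumberField IsDedekindDomain Pool.Agent.SC
open Pool.Agent.L (Inert L0 MM SamePlace OverV)
open Pool.Agent.LN (Geo Act HasSec GoodCurve IsRam DecPt)
open Pool.Agent.M (UR NN Moves OverPl inL0)
open Pool.Agent.HG (Pr nm Ctx Gd)
open Pool.Agent.M (root_const99 L0_le99 mem_NN99 eig99 map_NN99 eq_on_NN99 triv99 conj_lev99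
  place_ext99 map_L0_99 map_UR99 UR_up99 UR_mul99 UR_inv99 UR_one99 val_one99 act_inv99 act_mul99)

section

variable {E K0 U : Type} [Field E] [Field K0] [Field U] [Algebra E U] [Algebra K0 U]

theorem UR_upl99 [IsAlgClosed E] (ff : IsFunctionField E (L0 E K0 (U := U))) {ℓ j J : ℕ}
    (hj : j ≤ J) {w : U} (hw : UR E K0 (ℓ ^ j) w) : UR E K0 (ℓ ^ J) w := by
  obtain ⟨d, rfl⟩ := Nat.exists_eq_add_of_le hj
  rw [pow_add]
  exact UR_up99 ff _ hw

/-- `w` is an unramified root of order a power of `ℓ` -/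
def InS (E K0 : Type) [Field E] [Field K0] [Algebra E U] [Algebra K0 U] (ℓ : ℕ) (w : U) : Prop :=
  ∃ j : ℕ, UR E K0 (ℓ ^ j) w

theorem InS_of_L0_99 {ℓ : ℕ} {w : U} (hw0 : w ≠ 0) (hw : w ∈ L0 E K0 (U := U)) :
    InS E K0 ℓ w :=
  ⟨0, by rw [pow_zero]; exact UR_one99 hw0 hw⟩

theorem InS_mul99 [IsAlgClosed E] (ff : IsFunctionField E (L0 E K0 (U := U))) {ℓ : ℕ} {w w' : U}
    (hw : InS E K0 ℓ w) (hw' : InS E K0 ℓ w') : InS E K0 ℓ (w * w') := by
  obtain ⟨j, hj⟩ := hw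
  obtain ⟨j', hj'⟩ := hw'
  exact ⟨max j j', UR_mul99 ff (UR_upl99 ff (le_max_left j j') hj)
    (UR_upl99 ff (le_max_right j j') hj')⟩

theorem InS_inv99 [IsAlgClosed E] (ff : IsFunctionField E (L0 E K0 (U := U))) {ℓ : ℕ} {w : U}
    (hw : InS E K0 ℓ w) : InS E K0 ℓ w⁻¹ := by
  obtain ⟨j, hj⟩ := hw
  exact ⟨j, UR_inv99 ff hj⟩

/-- the group of the unramified roots is divisible modulo `L0` -/
theorem div_l99 [IsAlgClosed E] [CharZero E] [Algebra.IsAlgebraic (L0 E K0 (U := U)) U]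
    (ff : IsFunctionField E (L0 E K0 (U := U))) {M : IntermediateField E U} (hM : IsCover M)
    {ℓ : ℕ} (hℓ : 0 < ℓ) {w : U} (hw : InS E K0 ℓ w) :
    ∃ (w' : U) (c : U), InS E K0 ℓ w' ∧ c ≠ 0 ∧ c ∈ L0 E K0 (U := U) ∧ w' ^ ℓ = w / c := by
  classical
  obtain ⟨j, hw0, f, hf, hd⟩ := hw
  have hf0 : f ≠ 0 := by
    intro h0
    rw [h0] at hf
    exact pow_ne_zero _ hw0 hf.symm
  have hN0 : (ℓ ^ j : ℕ) ≠ 0 := (pow_pos hℓ j).ne'
  have hN0' : ((ℓ ^ j : ℕ) : ℤ) ≠ 0 := by exact_mod_cast hN0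
  choose e he using hd
  have hesupp : {P : Place E (L0 E K0 (U := U)) | e P ≠ 0}.Finite := by
    refine (FF.finite_support_ord ff hf0).subset fun P hP h0 => hP ?_
    rw [he P] at h0
    exact (mul_eq_zero.1 h0).resolve_left hN0'
  let D : Place E (L0 E K0 (U := U)) →₀ ℤ := Finsupp.ofSupportFinite e hesupp
  have hD : ∀ P, D P = e P := fun P => rfl
  have hDdeg : (D.sum fun _ m => m) = 0 := by
    have h1 : FF.dv ff f = ((ℓ ^ j : ℕ) : ℤ) • D := by
      ext P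
      rw [Finsupp.smul_apply, FF.dv_apply, hD, he P, smul_eq_mul]
    have h2 := FF.deg_dv ff hf0
    rw [h1, map_zsmul, FF.deg_eq, smul_eq_mul] at h2
    exact (mul_eq_zero.1 h2).resolve_left hN0'
  obtain ⟨D', c, hc0, hc⟩ := FF.picDiv ff ℓ hℓ D hDdeg
  have hc0' : (c : U) ≠ 0 := fun h0 => hc0 (Subtype.ext h0)
  -- the root
  set g : L0 E K0 (U := U) := f / c ^ ℓ ^ j with hg
  have hg0 : g ≠ 0 := div_ne_zero hf0 (pow_ne_zero _ hc0)
  have hgU : (w / c) ^ ℓ ^ j = (g : U) := by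
    rw [div_pow, ← hf]
    rfl
  have hgord : ∀ P : Place E (L0 E K0 (U := U)),
      ord P.ring g = ((ℓ ^ j : ℕ) : ℤ) * ((ℓ : ℤ) * D' P) := by
    intro P
    rw [hg, FF.ord_div ff P hf0 (pow_ne_zero _ hc0), FF.ord_pow ff P hc0, he P, ← hD P, hc P]
    push_cast
    ring
  have hu0 : w / c ≠ 0 := div_ne_zero hw0 hc0'
  obtain ⟨w', hw'⟩ := hM.root (w / c) ℓ hℓ (by
    intro W hW
    by_cases htop : W = ⊤
    · refine ⟨1, ?_⟩
      rw [one_pow, map_one]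
      exact val_one99 hu0 (by rw [htop]; trivial) (by rw [htop]; trivial)
    · let b : Place E (L0 E K0 (U := U)) := resPlace W hW _ (exists_notMem_of_algebraic htop)
      obtain ⟨π, hπ0, hπ⟩ := FF.exists_ord_eq ff b (D' b)
      have hπ0' : (π : U) ≠ 0 := fun h0 => hπ0 (Subtype.ext h0)
      have h1 : g / (π ^ ℓ) ^ ℓ ^ j ≠ 0 := div_ne_zero hg0 (pow_ne_zero _ (pow_ne_zero ℓ hπ0))
      have h2 : ord b.ring (g / (π ^ ℓ) ^ ℓ ^ j) = 0 := by
        rw [FF.ord_div ff b hg0 (pow_ne_zero _ (pow_ne_zero ℓ hπ0)),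
          FF.ord_pow ff b (pow_ne_zero ℓ hπ0), FF.ord_pow ff b hπ0, hπ, hgord]
        push_cast
        ring
      have h3 : g / (π ^ ℓ) ^ ℓ ^ j ∈ b.ring := (FF.ord_nonneg_iff ff b h1).1 h2.ge
      have h4 : (g / (π ^ ℓ) ^ ℓ ^ j)⁻¹ ∈ b.ring := by
        refine (FF.ord_nonneg_iff ff b (inv_ne_zero h1)).1 ?_
        rw [FF.ord_inv ff b h1, h2, neg_zero]
      have h5 : W.valuation ((g / (π ^ ℓ) ^ ℓ ^ j : L0 E K0 (U := U)) : U) = 1 :=
        val_one99 (fun h0 => h1 (Subtype.ext h0)) h3 h4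
      have h6 : ((g / (π ^ ℓ) ^ ℓ ^ j : L0 E K0 (U := U)) : U) =
          (w / c) ^ ℓ ^ j / ((π : U) ^ ℓ) ^ ℓ ^ j := by
        rw [hgU]
        rfl
      rw [h6, ← div_pow, map_pow] at h5
      have h7 : W.valuation (w / c / (π : U) ^ ℓ) = 1 :=
        (pow_eq_one_iff_of_nonneg zero_le hN0).1 h5
      refine ⟨π, ?_⟩
      rw [map_div₀] at h7
      exact (div_eq_one_iff_eq ((Valuation.ne_zero_iff _).2 (pow_ne_zero ℓ hπ0'))).1 h7)
  refine ⟨w', c, ⟨j + 1, ?_, g, ?_, fun P => ?_⟩, hc0', c.2, hw'⟩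
  · rintro rfl
    rw [zero_pow hℓ.ne'] at hw'
    exact hu0 hw'.symm
  · rw [pow_succ', pow_mul, hw', hgU]
  · rw [hgord]
    exact ⟨D' P, by push_cast; ring⟩

/-! ## The group -/

/-- the group of the unramified roots of order a power of `ℓ` -/
def grpS [IsAlgClosed E] (ff : IsFunctionField E (L0 E K0 (U := U))) (ℓ : ℕ) : Subgroup Uˣ where
  carrier := {w | InS E K0 ℓ (w : U)}
  mul_mem' := fun ha hb => InS_mul99 ff ha hb
  one_mem' := InS_of_L0_99 one_ne_zero (one_mem _)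
  inv_mem' := fun {x} hx => by
    show InS E K0 ℓ ((x⁻¹ : Uˣ) : U)
    rw [Units.val_inv_eq_inv_val]
    exact InS_inv99 ff hx

/-- the subgroup `L0` -/
def subS [IsAlgClosed E] (ff : IsFunctionField E (L0 E K0 (U := U))) (ℓ : ℕ) :
    Subgroup (grpS ff ℓ) where
  carrier := {w | ((w : Uˣ) : U) ∈ L0 E K0 (U := U)}
  mul_mem' := fun {a b} ha hb => by
    show (((a : Uˣ) * (b : Uˣ) : Uˣ) : U) ∈ L0 E K0 (U := U)
    rw [Units.val_mul]
    exact mul_mem ha hb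
  one_mem' := by
    show ((1 : Uˣ) : U) ∈ L0 E K0 (U := U)
    rw [Units.val_one]
    exact one_mem _
  inv_mem' := fun {x} hx => by
    show (((x : Uˣ)⁻¹ : Uˣ) : U) ∈ L0 E K0 (U := U)
    rw [Units.val_inv_eq_inv_val]
    exact inv_mem hx

end

section

variable {k K0 E U : Type} [Field k] [Field K0] [Field E] [Field U] [Algebra k K0]
  [Algebra k E] [Algebra E U] [Algebra K0 U] [Algebra k U] {r : U}

/-- `Φ g` maps `N`-th roots to `N`-th roots -/
theorem act_UR99 [IsAlgClosed E] (ff : IsFunctionField E (L0 E K0 (U := U))) {n : ℕ} {c : k}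
    {Φ : (E ≃ₐ[k] E) →* (U ≃+* U)} (hA : Act (K0 := K0) n r c Φ) (g : E ≃ₐ[k] E) {N : ℕ} {w : U}
    (hw : UR E K0 N w) : UR E K0 N (Φ g w) :=
  map_UR99 ff (Φ g) (Φ g⁻¹) g (hA.const g) (hA.fixK g) (hA.const g⁻¹) (hA.fixK g⁻¹)
    (fun x => (act_inv99 Φ g x).1) (fun x => (act_inv99 Φ g x).2) hw

end

/-- BLOCK PI -/
theorem pI (hFT : M.StmtFT) : StmtPI := by
  intro k K0 E U _ _ _ _ _ _ _ _ _ _ _ _ n ℓ h r hn hℓ hℓn hμ G c Φ hc hA
  classical
  have hcE : CharZero E := charZero_of_injective_algebraMap (algebraMap k E).injective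
  have hcU : CharZero U := charZero_of_injective_algebraMap (algebraMap k U).injective
  have hclE : IsAlgClosed E := G.clE
  have hℓ0 : 0 < ℓ := hℓ.pos
  have ff := G.ff
  have hKL : ∀ x : K0, algebraMap K0 U x ∈ L0 E K0 (U := U) :=
    fun x => IntermediateField.subset_adjoin _ _ ⟨x, rfl⟩
  have halg : Algebra.IsAlgebraic (L0 E K0 (U := U)) U := by
    have hn : Normal K0 U := G.normal
    let aKL : Algebra K0 (L0 E K0 (U := U)) :=
      (RingHom.codRestrict (algebraMap K0 U) (L0 E K0 (U := U)) hKL).toAlgebra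
    have sKL : IsScalarTower K0 (L0 E K0 (U := U)) U := IsScalarTower.of_algebraMap_eq fun x => rfl
    have hnL : Normal (L0 E K0 (U := U)) U := Normal.tower_top_of_normal K0 (L0 E K0 (U := U)) U
    infer_instance
  -- the group
  obtain ⟨P, iP, dP, κ, hκsurj, hκmul, hκ0, hκg⟩ : ∃ (P : Type) (_ : AddCommGroup P)
      (_ : DistribMulAction (E ≃ₐ[k] E) P) (κ : U → P),
      (∀ p : P, ∃ w : U, InS E K0 ℓ w ∧ κ w = p) ∧
      (∀ w w' : U, InS E K0 ℓ w → InS E K0 ℓ w' → κ (w * w') = κ w + κ w') ∧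
      (∀ w : U, InS E K0 ℓ w → (κ w = 0 ↔ w ∈ L0 E K0 (U := U))) ∧
      ∀ (g : E ≃ₐ[k] E) (w : U), InS E K0 ℓ w → κ (Φ g w) = g • κ w := by
    let S := grpS (K0 := K0) (U := U) ff ℓ
    let N := subS (K0 := K0) (U := U) ff ℓ
    have hS : ∀ w : Uˣ, w ∈ S ↔ InS E K0 ℓ (w : U) := fun w => Iff.rfl
    have hN : ∀ w : S, w ∈ N ↔ ((w : Uˣ) : U) ∈ L0 E K0 (U := U) := fun w => Iff.rfl
    -- the action on `S`
    have hΦS : ∀ (g : E ≃ₐ[k] E) (w : U), InS E K0 ℓ w → InS E K0 ℓ (Φ g w) := by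
      rintro g w ⟨j, hj⟩
      exact ⟨j, act_UR99 ff hA g hj⟩
    have hΦL : ∀ (g : E ≃ₐ[k] E) (w : U), w ∈ L0 E K0 (U := U) → Φ g w ∈ L0 E K0 (U := U) :=
      fun g w hw => map_L0_99 (Φ g) g (hA.const g) (hA.fixK g) hw
    let fS : (E ≃ₐ[k] E) → (S →* S) := fun g =>
      { toFun := fun w => ⟨Units.map (Φ g : U →* U) w, hΦS g _ w.2⟩
        map_one' := by
          apply Subtype.ext
          apply Units.ext
          show Φ g 1 = 1
          exact map_one _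
        map_mul' := fun a b => by
          apply Subtype.ext
          apply Units.ext
          show Φ g ((a : Uˣ) * (b : Uˣ) : Uˣ) = Φ g (a : Uˣ) * Φ g (b : Uˣ)
          rw [Units.val_mul, map_mul] }
    have hfS : ∀ (g : E ≃ₐ[k] E) (w : S), ((fS g w : Uˣ) : U) = Φ g ((w : Uˣ) : U) := fun g w => rfl
    have hfN : ∀ g : E ≃ₐ[k] E, N ≤ N.comap (fS g) := by
      intro g w hw
      exact hΦL g _ hw
    let fQ : (E ≃ₐ[k] E) → (S ⧸ N →* S ⧸ N) := fun g => QuotientGroup.map N N (fS g) (hfN g)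
    have hfQ : ∀ (g : E ≃ₐ[k] E) (w : S), fQ g (QuotientGroup.mk w) = QuotientGroup.mk (fS g w) :=
      fun g w => rfl
    have hfQ1 : ∀ q : S ⧸ N, fQ 1 q = q := by
      intro q
      obtain ⟨w, rfl⟩ := QuotientGroup.mk_surjective q
      rw [hfQ]
      have h1 : fS 1 w = w := by
        apply Subtype.ext
        apply Units.ext
        rw [hfS, map_one]
        rfl
      rw [h1]
    have hfQmul : ∀ (g g' : E ≃ₐ[k] E) (q : S ⧸ N), fQ (g * g') q = fQ g (fQ g' q) := by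
      intro g g' q
      obtain ⟨w, rfl⟩ := QuotientGroup.mk_surjective q
      rw [hfQ, hfQ, hfQ]
      have h1 : fS (g * g') w = fS g (fS g' w) := by
        apply Subtype.ext
        apply Units.ext
        rw [hfS, hfS, hfS, act_mul99]
      rw [h1]
    let dist : DistribMulAction (E ≃ₐ[k] E) (Additive (S ⧸ N)) :=
      { smul := fun g p => Additive.ofMul (fQ g (Additive.toMul p))
        one_smul := fun p => congrArg Additive.ofMul (hfQ1 (Additive.toMul p))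
        mul_smul := fun g g' p => congrArg Additive.ofMul (hfQmul g g' (Additive.toMul p))
        smul_zero := fun g => congrArg Additive.ofMul (map_one (fQ g))
        smul_add := fun g p q =>
          congrArg Additive.ofMul (map_mul (fQ g) (Additive.toMul p) (Additive.toMul q)) }
    have hsmul : ∀ (g : E ≃ₐ[k] E) (w : S), g • (Additive.ofMul (QuotientGroup.mk w : S ⧸ N)) =
        Additive.ofMul (QuotientGroup.mk (fS g w) : S ⧸ N) := fun g w => rfl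
    -- the class
    let κ : U → Additive (S ⧸ N) := fun w => if h1 : w ≠ 0 ∧ InS E K0 ℓ w then
      Additive.ofMul (QuotientGroup.mk (⟨Units.mk0 w h1.1, h1.2⟩ : S) : S ⧸ N) else 0
    have hκ : ∀ w : S, κ ((w : Uˣ) : U) = Additive.ofMul (QuotientGroup.mk w : S ⧸ N) := by
      intro w
      have h1 : ((w : Uˣ) : U) ≠ 0 ∧ InS E K0 ℓ ((w : Uˣ) : U) := ⟨(w : Uˣ).ne_zero, w.2⟩
      have h2 : κ ((w : Uˣ) : U) =
        Additive.ofMul (QuotientGroup.mk (⟨Units.mk0 _ h1.1, h1.2⟩ : S) : S ⧸ N) := dif_pos h1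
      rw [h2]
      congr 2
      apply Subtype.ext
      exact Units.ext rfl
    have hlift : ∀ w : U, InS E K0 ℓ w → ∃ s : S, ((s : Uˣ) : U) = w := by
      intro w hw
      obtain ⟨j, hj⟩ := id hw
      exact ⟨⟨Units.mk0 w hj.1, hw⟩, rfl⟩
    have hκsurj : ∀ p : Additive (S ⧸ N), ∃ s : S, κ ((s : Uˣ) : U) = p := by
      intro p
      obtain ⟨w, hw⟩ := QuotientGroup.mk_surjective (Additive.toMul p)
      refine ⟨w, ?_⟩
      rw [hκ, hw]
      rfl
    have hκmul : ∀ w w' : U, InS E K0 ℓ w → InS E K0 ℓ w' → κ (w * w') = κ w + κ w' := by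
      intro w w' hw hw'
      obtain ⟨s, rfl⟩ := hlift w hw
      obtain ⟨s', rfl⟩ := hlift w' hw'
      have h1 : ((s : Uˣ) : U) * ((s' : Uˣ) : U) = (((s * s' : S) : Uˣ) : U) := rfl
      rw [h1, hκ, hκ, hκ, QuotientGroup.mk_mul, ofMul_mul]
    have hκ0 : ∀ w : U, InS E K0 ℓ w → (κ w = 0 ↔ w ∈ L0 E K0 (U := U)) := by
      intro w hw
      obtain ⟨s, rfl⟩ := hlift w hw
      rw [hκ, ← hN, ← QuotientGroup.eq_one_iff, ← ofMul_one, Additive.ofMul.injective.eq_iff]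
    have hκg : ∀ (g : E ≃ₐ[k] E) (w : U), InS E K0 ℓ w → κ (Φ g w) = g • κ w := by
      intro g w hw
      obtain ⟨s, rfl⟩ := hlift w hw
      rw [hκ, hsmul, ← hκ, hfS]
    exact ⟨Additive (S ⧸ N), inferInstance, dist, κ, fun p => by
      obtain ⟨s, hs⟩ := hκsurj p
      exact ⟨_, s.2, hs⟩, hκmul, hκ0, hκg⟩
  have hκpow : ∀ (w : U), InS E K0 ℓ w → ∀ n : ℕ, InS E K0 ℓ (w ^ n) ∧ κ (w ^ n) = n • κ w := by
    intro w hw n
    induction n with
    | zero =>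
      rw [pow_zero, zero_smul]
      have h1 : InS E K0 ℓ (1 : U) := InS_of_L0_99 one_ne_zero (one_mem _)
      exact ⟨h1, (hκ0 1 h1).2 (one_mem _)⟩
    | succ n ih =>
      rw [pow_succ, succ_nsmul]
      exact ⟨InS_mul99 ff ih.1 hw, by rw [hκmul _ _ ih.1 hw, ih.2]⟩
  refine ⟨P, iP, dP, κ, ?_, ?_, ?_, ?_, ?_, ?_, ?_, ?_⟩
  · intro p
    obtain ⟨w, ⟨j, hj⟩, hw⟩ := hκsurj p
    exact ⟨w, j, hj, hw⟩
  · intro w w' j j' hw hw'
    exact hκmul w w' ⟨j, hw⟩ ⟨j', hw'⟩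
  · intro w j hw
    exact hκ0 w ⟨j, hw⟩
  · intro g w j hw
    exact hκg g w ⟨j, hw⟩
  · -- torsion
    intro p
    obtain ⟨w, hw, rfl⟩ := hκsurj p
    obtain ⟨j, hj⟩ := id hw
    refine ⟨j, ?_⟩
    obtain ⟨h1, h2⟩ := hκpow _ hw (ℓ ^ j)
    rw [← h2, hκ0 _ h1]
    obtain ⟨-, f, hf, -⟩ := hj
    rw [← hf]
    exact f.2
  · -- divisible
    intro p
    obtain ⟨w, hw, rfl⟩ := hκsurj p
    obtain ⟨w', c, hw', hc0, hcL, h1⟩ := div_l99 ff G.cover hℓ0 hw
    refine ⟨κ w', ?_⟩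
    have hcS : InS E K0 ℓ c := InS_of_L0_99 hc0 hcL
    have h2 : w = w' ^ ℓ * c := by
      rw [h1, div_mul_cancel₀ _ hc0]
    rw [h2, hκmul _ _ (hκpow w' hw' ℓ).1 hcS, (hκpow w' hw' ℓ).2, (hκ0 c hcS).2 hcL, add_zero]
  · -- the `ℓ`-torsion
    obtain ⟨T, hT0, hT⟩ := hFT E (L0 E K0 (U := U)) ff ℓ hℓ0
    let σ : L0 E K0 (U := U) → U := fun t =>
      if hs : ∃ y : U, y ^ ℓ = (t : U) then hs.choose else 1
    refine (T.image fun t => κ (σ t)).finite_toSet.subset ?_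
    intro p hp
    obtain ⟨w, hw, rfl⟩ := hκsurj p
    have hp' : (ℓ : ℕ) • κ w = 0 := hp
    obtain ⟨h1, h2⟩ := hκpow _ hw ℓ
    rw [← h2, hκ0 _ h1] at hp'
    have hw0 : w ≠ 0 := by
      obtain ⟨j, hj⟩ := hw
      exact hj.1
    let f : L0 E K0 (U := U) := ⟨w ^ ℓ, hp'⟩
    have hf0 : f ≠ 0 := fun h0 => pow_ne_zero ℓ hw0 (congrArg Subtype.val h0)
    have hfe : ∀ P : Place E (L0 E K0 (U := U)), (ℓ : ℤ) ∣ ord P.ring f := by
      intro P
      obtain ⟨j, hj⟩ := id hw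
      have hj1 := UR_upl99 ff (Nat.le_succ j) hj
      obtain ⟨-, f', hf', hd'⟩ := hj1
      have h3 : f' = f ^ ℓ ^ j := by
        apply Subtype.ext
        show (f' : U) = (w ^ ℓ) ^ ℓ ^ j
        rw [hf', ← pow_mul, ← pow_succ']
      have h4 := hd' P
      rw [h3, FF.ord_pow ff P hf0] at h4
      obtain ⟨e, he⟩ := h4
      refine ⟨e, ?_⟩
      have h5 : ((ℓ ^ j : ℕ) : ℤ) ≠ 0 := by
        exact_mod_cast (pow_pos hℓ0 j).ne'
      apply mul_left_cancel₀ h5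
      rw [he, Nat.succ_eq_add_one, pow_succ]
      push_cast
      ring
    obtain ⟨t, ht, l, hl⟩ := hT f hf0 hfe
    have hl0 : l ≠ 0 := by
      intro h0
      apply hf0
      rw [hl, h0, zero_pow hℓ0.ne', mul_zero]
    have hl0' : (l : U) ≠ 0 := fun h0 => hl0 (Subtype.ext h0)
    have h3 : (w / l) ^ ℓ = (t : U) := by
      have h4 : (f : U) = (t : U) * (l : U) ^ ℓ := by rw [hl]; rfl
      have h5 : (f : U) = w ^ ℓ := rfl
      rw [div_pow, ← h5, h4, mul_div_cancel_right₀ _ (pow_ne_zero ℓ hl0')]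
    have h4 : ∃ y : U, y ^ ℓ = (t : U) := ⟨_, h3⟩
    have h5 : σ t = h4.choose := dif_pos h4
    have h6 : σ t ^ ℓ = (t : U) := by
      rw [h5]
      exact h4.choose_spec
    have ht0 : (t : U) ≠ 0 := fun h0 => hT0 t ht (Subtype.ext h0)
    have hσ0 : σ t ≠ 0 := by
      intro h0
      rw [h0, zero_pow hℓ0.ne'] at h6
      exact ht0 h6.symm
    have h7 : (w / l / σ t) ^ ℓ = 1 := by
      rw [div_pow, h3, h6, div_self ht0]
    obtain ⟨ζ, hζ1, hζ⟩ := root_const99 (E := E) hℓ0 h7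
    have hζ0 : ζ ≠ 0 := by
      intro h0
      rw [h0, zero_pow hℓ0.ne'] at hζ1
      exact zero_ne_one hζ1
    have hlS : InS E K0 ℓ (algebraMap E U ζ * (l : U)) :=
      InS_of_L0_99 (mul_ne_zero ((map_ne_zero _).2 hζ0) hl0')
        (mul_mem ((L0 E K0 (U := U)).algebraMap_mem ζ) l.2)
    have h9 : w = σ t * (algebraMap E U ζ * l) := by
      rw [hζ]
      field_simp
    have hσS : InS E K0 ℓ (σ t) := by
      have h10 : σ t = w * (algebraMap E U ζ * (l : U))⁻¹ := by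
        rw [h9]
        exact (mul_inv_cancel_right₀ (mul_ne_zero ((map_ne_zero _).2 hζ0) hl0') _).symm
      rw [h10]
      exact InS_mul99 ff hw (InS_inv99 ff hlS)
    rw [Finset.mem_coe, Finset.mem_image]
    refine ⟨t, ht, ?_⟩
    show κ (σ t) = κ w
    rw [h9, hκmul _ _ hσS hlS, (hκ0 _ hlS).2
      (mul_mem ((L0 E K0 (U := U)).algebraMap_mem ζ) l.2), add_zero]
  · -- continuity
    intro p
    obtain ⟨w, hw, rfl⟩ := hκsurj p
    obtain ⟨L, hL, h1⟩ := hA.cont w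
    refine ⟨L, hL, fun g hg => ?_⟩
    rw [← hκg g _ hw, h1 g hg]

end Pool.Agent.ML
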