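import Pool.Agent.Helper99.ML.PI

/-!
# Project ML, block FIN: finitely many actions on the level `ℓ ^ m`
-/

set_option autoImplicit false

namespace Pool.Agent.ML

open VC IntermediateField NumberField IsDedekindDomain Pool.Agent.SC
open Pool.Agent.L (Inert L0 MM SamePlace OverV)
open Pool.Agent.LN (Geo Act HasSec GoodCurve IsRam DecPt)
open Pool.Agent.M (UR NN Moves OverPl inL0)
open Pool.Agent.HG (Pr nm Ctx Gd)
open Pool.Agent.M (root_const99 L0_le99 mem_NN99 eig99 map_NN99 eq_on_NN99 triv99 conj_lev99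
  place_ext99 map_L0_99 map_UR99 UR_up99 UR_mul99 UR_inv99 UR_one99 val_one99 act_inv99 act_mul99
  fix_of_const_m99 eq_on_L0_99 nonunit_iff99)

section

variable {k K0 E U : Type} [Field k] [Field K0] [Field E] [Field U] [Algebra k K0]
  [Algebra k E] [Algebra E U] [Algebra K0 U] {r : U}

/-- if one action fixes the root `z`, another one multiplies it by a root of unity -/
theorem act_eig99 [IsAlgClosed E] [CharZero E] {n : ℕ} {c c₀ : k}
    {Φ Φ₀ : (E ≃ₐ[k] E) →* (U ≃+* U)}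
    (hA : Act (K0 := K0) n r c Φ) (hA₀ : Act (K0 := K0) n r c₀ Φ₀) (g : E ≃ₐ[k] E) {q : ℕ}
    (hq : 0 < q) {z : U} (hz : UR E K0 q z) (hfix : Φ₀ g z = z) :
    ∃ ζ : E, ζ ^ q = 1 ∧ Φ g z = algebraMap E U ζ * z := by
  let a : U ≃ₐ[E] U := AlgEquiv.ofRingEquiv (f := (Φ₀ g⁻¹).trans (Φ g)) (by
    intro e
    show Φ g (Φ₀ g⁻¹ (algebraMap E U e)) = _
    rw [hA₀.const, hA.const]
    congr 1
    exact AlgEquiv.apply_symm_apply g e)
  have hav : ∀ x, a x = Φ g (Φ₀ g⁻¹ x) := fun x => rfl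
  have haL : ∀ x ∈ L0 E K0 (U := U), a x = x := by
    intro x hx
    refine eq_on_L0_99 (a : U →+* U) (RingHom.id U) (fun e => a.commutes e) (fun c => ?_) hx
    show Φ g (Φ₀ g⁻¹ (algebraMap K0 U c)) = _
    rw [hA₀.fixK, hA.fixK]
    rfl
  obtain ⟨ζ, h1, h2⟩ := eig99 hq hz a haL
  refine ⟨ζ, h1, ?_⟩
  have h3 : Φ₀ g⁻¹ z = z := by
    conv_lhs => rw [← hfix]
    exact (act_inv99 Φ₀ g z).2
  rw [hav, h3] at h2
  exact h2

end

/-- the `ℓ`-th roots of unity of `E` are in `k` -/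
theorem mu_lift99 {k E : Type} [Field k] [Field E] [Algebra k E] {ℓ : ℕ} (hℓ : 0 < ℓ)
    (hμ : HasMu k ℓ) {x : E} (hx : x ^ ℓ = 1) :
    ∃ ξ : rootsOfUnity ℓ k, algebraMap k E ((ξ : kˣ) : k) = x := by
  have hNZ : NeZero ℓ := ⟨hℓ.ne'⟩
  obtain ⟨ζ, hζ⟩ := hμ
  have h1 : IsPrimitiveRoot (algebraMap k E ζ) ℓ :=
    hζ.map_of_injective (algebraMap k E).injective
  obtain ⟨i, -, h2⟩ := h1.eq_pow_of_pow_eq_one hx
  refine ⟨rootsOfUnity.mkOfPowEq (ζ ^ i) (by rw [← pow_mul, mul_comm, pow_mul, hζ.pow_eq_one,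
    one_pow]), ?_⟩
  rw [← h2, ← map_pow]
  rfl

/-- At almost all primes the inertia acts trivially on finitely many unramified roots, for all
actions. -/
theorem inert_fix99 (hLM : StmtLM) (hFR : LN.StmtFR) (hAR : L.StmtAR)
    {k K0 E U : Type} [Field k] [NumberField k] [Field K0] [Field E] [Field U] [Algebra k K0]
    [Algebra k E] [Algebra E U] [Algebra K0 U] [Algebra k U] [IsScalarTower k E U]
    [IsScalarTower k K0 U] {n : ℕ} {h : K0} {r : U} (hn2 : 2 ≤ n) (G : Geo k K0 E U n h r) {q : ℕ}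
    (hq : 0 < q)
    (Z : Finset U) (hZ : ∀ z ∈ Z, UR E K0 q z)
    (hstab : ∀ (c : k) (Φ : (E ≃ₐ[k] E) →* (U ≃+* U)), c ≠ 0 → Act (K0 := K0) n r c Φ →
      ∀ g, ∀ z ∈ Z, Φ g z ∈ Z) (c₀ : k) (Φ₀ : (E ≃ₐ[k] E) →* (U ≃+* U))
    (hA₀ : Act (K0 := K0) n r c₀ Φ₀) :
    ∃ Bad : Set (Pr k), Bad.Finite ∧ ∀ v ∉ Bad, ∀ O : ValuationSubring E, OverV v O →
      ∀ τ : E ≃ₐ[k] E, Inert O τ.toRingEquiv →
      ∀ (c : k) (Φ : (E ≃ₐ[k] E) →* (U ≃+* U)), c ≠ 0 → Act (K0 := K0) n r c Φ →
      ∀ z ∈ Z, Φ τ z = z := by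
  classical
  have hcE : CharZero E := charZero_of_injective_algebraMap (algebraMap k E).injective
  have hcU : CharZero U := charZero_of_injective_algebraMap (algebraMap k U).injective
  have hclE : IsAlgClosed E := G.clE
  have halgE : Algebra.IsAlgebraic k E := G.algE
  have hclos : IsAlgClosure k E := ⟨G.clE, G.algE⟩
  have hgalE : IsGalois k E := IsAlgClosure.isGalois k E
  have ff := G.ff
  have hKL : ∀ x : K0, algebraMap K0 U x ∈ L0 E K0 (U := U) :=
    fun x => IntermediateField.subset_adjoin _ _ ⟨x, rfl⟩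
  obtain ⟨N, hMN, hffN, hZN, -, Bad1, hBad1, hLM⟩ := hLM k K0 E U n h r hn2 G Z
  have hLN : L0 E K0 (U := U) ≤ N := by
    refine le_trans ?_ hMN
    unfold L0 MM
    exact IntermediateField.adjoin.mono _ _ _ Set.subset_union_left
  -- the constants which make `Φ₀` trivial on `Z`
  have hC0 : ∀ z : U, ∃ C : Finset E, ∀ g : E ≃ₐ[k] E, (∀ x ∈ C, g x = x) → Φ₀ g z = z := by
    intro z
    obtain ⟨L, hL, h1⟩ := hA₀.cont z
    let B := Module.finBasis k L
    refine ⟨Finset.univ.image fun i => (B i : E), fun g hg => h1 g fun x hx => ?_⟩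
    have h2 : (⟨x, hx⟩ : L) = ∑ i, B.repr ⟨x, hx⟩ i • B i := (B.sum_repr _).symm
    have h3 : x = ∑ i, B.repr ⟨x, hx⟩ i • (B i : E) := by
      have h4 := congrArg (fun y : L => (y : E)) h2
      rw [AddSubmonoidClass.coe_finsetSum] at h4
      exact h4
    rw [h3, map_sum]
    refine Finset.sum_congr rfl fun i _ => ?_
    rw [Algebra.smul_def, map_mul, AlgEquiv.commutes,
      hg _ (Finset.mem_image_of_mem _ (Finset.mem_univ i))]
  choose C0 hC0 using hC0
  -- the branch points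
  have hn0 : 0 < n := by omega
  have hh0 : (inL0 h : L0 E K0 (U := U)) ≠ 0 := by
    intro h0
    have h1 : algebraMap K0 U h = 0 := congrArg Subtype.val h0
    have h2 : r ^ n = 0 := by rw [G.rpow, h1]
    refine G.rnot 1 one_pos (by omega) ?_
    rw [pow_eq_zero_iff hn0.ne'] at h2
    rw [h2, pow_one]
    exact zero_mem _
  have hBfin : {b : Place E (L0 E K0 (U := U)) | BPl n h b}.Finite := by
    refine (FF.finite_support_ord ff hh0).subset fun b hb h0 => hb ?_
    rw [h0]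
    exact dvd_zero _
  -- the data at a branch point
  have hdat : ∀ (b : Place E (L0 E K0 (U := U))) (z : U), ∃ (π : L0 E K0 (U := U)) (ρ : E),
      UR E K0 q z → π ≠ 0 ∧ ∃ f : L0 E K0 (U := U), (f : U) = z ^ q ∧ f ≠ 0 ∧ f / π ^ q ∈ b.ring ∧
        (f / π ^ q)⁻¹ ∈ b.ring ∧
        f / π ^ q - algebraMap E (L0 E K0 (U := U)) ρ ∈ b.ring.nonunits := by
    intro b z
    by_cases hz : UR E K0 q z
    · obtain ⟨hz0, f, hf, hd⟩ := hz
      obtain ⟨e, he⟩ := hd b
      have hf0 : f ≠ 0 := by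
        intro h0
        rw [h0] at hf
        exact pow_ne_zero q hz0 hf.symm
      obtain ⟨π, hπ0, hπ⟩ := FF.exists_ord_eq ff b e
      have hg0 : f / π ^ q ≠ 0 := div_ne_zero hf0 (pow_ne_zero _ hπ0)
      have hord : ord b.ring (f / π ^ q) = 0 := by
        rw [FF.ord_div ff b hf0 (pow_ne_zero _ hπ0), FF.ord_pow ff b hπ0, he, hπ]
        ring
      have h1 : f / π ^ q ∈ b.ring := (FF.ord_nonneg_iff ff b hg0).1 hord.ge
      have h2 : (f / π ^ q)⁻¹ ∈ b.ring := by
        refine (FF.ord_nonneg_iff ff b (inv_ne_zero hg0)).1 ?_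
        rw [FF.ord_inv ff b hg0, hord, neg_zero]
      obtain ⟨ρ, hρ⟩ := FF.exists_residue ff b h1
      exact ⟨π, ρ, fun _ => ⟨hπ0, f, hf, hf0, h1, h2, hρ⟩⟩
    · exact ⟨0, 0, fun h => absurd h hz⟩
  choose π ρ hdat using hdat
  choose Cπ hCπ using fun y : L0 E K0 (U := U) => fix_of_const_m99 (K0 := K0) (E := E) (y : U) y.2
  -- all constants
  let Cr : E → Finset E := fun ρ => (Polynomial.X ^ q - Polynomial.C ρ : Polynomial E).roots.toFinset
  have hCr : ∀ (ρ e : E), e ^ q = ρ → e ∈ Cr ρ := by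
    intro ρ e he
    rw [Multiset.mem_toFinset, Polynomial.mem_roots (Polynomial.X_pow_sub_C_ne_zero hq ρ)]
    simp [he]
  let CC : Finset E := Z.biUnion C0 ∪
    (hBfin.toFinset ×ˢ Z).biUnion fun p => Cr (ρ p.1 p.2) ∪ Cπ (π p.1 p.2)
  let SS : Finset E := ((Polynomial.nthRoots n (1 : E)).toFinset.filter fun ζ => ζ ≠ 1).image
    fun ζ => ζ - 1
  have hSS : ∀ ζ : E, ζ ^ n = 1 → ζ ≠ 1 → ζ - 1 ∈ SS := by
    intro ζ h1 h2
    refine Finset.mem_image_of_mem _ (Finset.mem_filter.2 ⟨?_, h2⟩)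
    rw [Multiset.mem_toFinset, Polynomial.mem_nthRoots hn0]
    exact h1
  obtain ⟨Bad2, hBad2, hAR⟩ := hAR k E SS CC (by
    intro s hs
    obtain ⟨ζ, h1, rfl⟩ := Finset.mem_image.1 hs
    exact sub_ne_zero.2 (Finset.mem_filter.1 h1).2)
  refine ⟨Bad1 ∪ Bad2, hBad1.union hBad2, ?_⟩
  -- the case of `DecPt`
  have hmain : ∀ v ∉ Bad1 ∪ Bad2, ∀ (O : ValuationSubring E) (F : E ≃ₐ[k] E) (p f : ℕ),
      DecPt v O F p f → ∀ τ : E ≃ₐ[k] E, Inert O τ.toRingEquiv →
      ∀ (c : k) (Φ : (E ≃ₐ[k] E) →* (U ≃+* U)), c ≠ 0 → Act (K0 := K0) n r c Φ →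
      ∀ z ∈ Z, Φ τ z = z := by
    intro v hv O F p f hD τ hτ c Φ hc hA z hz
    have hv1 : v ∉ Bad1 := fun h => hv (Or.inl h)
    have hv2 : v ∉ Bad2 := fun h => hv (Or.inr h)
    obtain ⟨hL1, hL2⟩ := hLM v hv1 c hc Φ hA O F p f hD
    obtain ⟨hS, hC⟩ := hAR v hv2 O hD.above
    have hC := hC τ hτ
    by_cases hfx : ∀ d : E, d ^ n = algebraMap k E c → τ d = d
    · exact hL1 τ hτ hfx z hz
    · push Not at hfx
      obtain ⟨d₀, hd₀, hτd₀⟩ := hfx
      have hd₀0 : d₀ ≠ 0 := by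
        intro h0
        rw [h0, map_zero] at hτd₀
        exact hτd₀ rfl
      -- `v(c)` is not divisible by `n`
      have hodd : IsRam n v c := by
        intro d hd
        have hd0 : d ≠ 0 := by
          intro h0
          rw [h0, map_zero, zero_pow hn0.ne'] at hd
          exact (Valuation.ne_zero_iff _).2 hc hd
        have hdE : algebraMap k E d ≠ 0 := (map_ne_zero _).2 hd0
        have hu2 : v.valuation k (c / d ^ n) = 1 := by
          rw [map_div₀, map_pow, hd]
          exact div_self (pow_ne_zero n ((Valuation.ne_zero_iff _).2 hd0))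
        have h2 : O.valuation (algebraMap k E (c / d ^ n)) = 1 := by
          apply le_antisymm
          · rw [O.valuation_le_one_iff]
            exact (hD.above _).2 hu2.le
          · have h3 : O.valuation (algebraMap k E (c / d ^ n)⁻¹) ≤ 1 := by
              rw [O.valuation_le_one_iff]
              refine (hD.above _).2 ?_
              rw [map_inv₀, hu2, inv_one]
            rw [map_inv₀, map_inv₀] at h3
            refine (inv_le_one₀ (zero_lt_iff.2 ?_)).1 h3
            rw [Valuation.ne_zero_iff, _root_.map_ne_zero]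
            exact div_ne_zero hc (pow_ne_zero n hd0)
        have h3 : (d₀ / algebraMap k E d) ^ n = algebraMap k E (c / d ^ n) := by
          rw [div_pow, hd₀, map_div₀, map_pow]
        have h4 : O.valuation (d₀ / algebraMap k E d) = 1 := by
          rw [← h3, map_pow] at h2
          exact (pow_eq_one_iff_of_nonneg zero_le hn0.ne').1 h2
        have h5 : d₀ / algebraMap k E d ∈ O := by
          rw [← O.valuation_le_one_iff, h4]
        have h6 := hτ.res _ h5
        have hζ1 : (τ d₀ / d₀) ^ n = 1 := by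
          rw [div_pow, ← map_pow, hd₀, AlgEquiv.commutes, div_self]
          exact (map_ne_zero _).2 hc
        have hζ2 : τ d₀ / d₀ ≠ 1 := by
          intro h0
          exact hτd₀ ((div_eq_one_iff_eq hd₀0).1 h0)
        have h7 : τ.toRingEquiv (d₀ / algebraMap k E d) - d₀ / algebraMap k E d =
            (τ d₀ / d₀ - 1) * (d₀ / algebraMap k E d) := by
          have h8 : τ.toRingEquiv (d₀ / algebraMap k E d) = τ d₀ / algebraMap k E d := by
            show τ (d₀ / algebraMap k E d) = _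
            rw [map_div₀, AlgEquiv.commutes]
          rw [h8]
          field_simp
        rw [h7, map_mul, hS _ (hSS _ hζ1 hζ2), h4, mul_one] at h6
        exact lt_irrefl _ h6
      obtain ⟨b, Q, hbQ, -, hQ, hgr⟩ := hL2 hodd
      have hb : BPl n h b := fun hdvd => hgr n (dvd_refl n) hdvd hodd
      have hQτ := hQ τ hτ
      -- the valuation ring above `Q`
      obtain ⟨W, hW⟩ := _root_.SC.exists_place_over (K := E) (M := N) (N := U) Q
      have hWQ : ∀ (x : U) (hx : x ∈ N), x ∈ W.ring ↔ (⟨x, hx⟩ : N) ∈ Q.ring :=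
        fun x hx => hW ⟨x, hx⟩
      have hWb : ∀ x : L0 E K0 (U := U), (x : U) ∈ W.ring ↔ x ∈ b.ring := fun x =>
        (hWQ _ (hLN x.2)).trans (hbQ x.1 x.2 (hLN x.2)).symm
      have hWτ : ∀ x ∈ N, Φ τ x ∈ N → (x ∈ W.ring ↔ Φ τ x ∈ W.ring) := fun x hx hx' =>
        (hWQ x hx).trans ((hQτ x hx hx').trans (hWQ _ hx').symm)
      obtain ⟨hπ0, f', hf', hf0', h2, h3, h4⟩ := hdat b z (hZ z hz)
      have hz0 : z ≠ 0 := (hZ z hz).1
      have hπ0' : ((π b z : L0 E K0 (U := U)) : U) ≠ 0 := fun h => hπ0 (Subtype.ext h)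
      have hbB : (b, z) ∈ hBfin.toFinset ×ˢ Z :=
        Finset.mem_product.2 ⟨hBfin.mem_toFinset.2 hb, hz⟩
      have hCb : ∀ e ∈ Cr (ρ b z) ∪ Cπ (π b z), τ e = e := fun e he =>
        hC e (Finset.mem_union_right _ (Finset.mem_biUnion.2 ⟨_, hbB, he⟩))
      have hτπ : Φ τ ((π b z : L0 E K0 (U := U)) : U) = ((π b z : L0 E K0 (U := U)) : U) := by
        refine hCπ _ _ (hA.fixK τ) fun e he => ?_
        rw [hA.const, hCb e (Finset.mem_union_right _ he)]
      have hΦ₀ : Φ₀ τ z = z := hC0 z τ fun x hx =>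
        hC x (Finset.mem_union_left _ (Finset.mem_biUnion.2 ⟨z, hz, hx⟩))
      obtain ⟨α, -, hα⟩ := act_eig99 hA hA₀ τ hq (hZ z hz) hΦ₀
      -- the unit
      set y : U := z / ((π b z : L0 E K0 (U := U)) : U) with hy
      have hyn : y ^ q = ((f' / π b z ^ q : L0 E K0 (U := U)) : U) := by
        rw [hy, div_pow, ← hf']
        rfl
      have hy0 : y ≠ 0 := div_ne_zero hz0 hπ0'
      have hval0 : W.ring.valuation y ≠ 0 := (Valuation.ne_zero_iff _).2 hy0
      have h5 : W.ring.valuation y = 1 := by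
        have h6 : W.ring.valuation (y ^ q) ≤ 1 := by
          rw [hyn, W.ring.valuation_le_one_iff, hWb]
          exact h2
        have h7 : W.ring.valuation (y ^ q)⁻¹ ≤ 1 := by
          rw [hyn, W.ring.valuation_le_one_iff]
          exact (hWb _).2 h3
        rw [map_inv₀, map_pow] at h7
        rw [map_pow] at h6
        have h8 : W.ring.valuation y ^ q = 1 := by
          refine le_antisymm h6 ?_
          exact (inv_le_one₀ (zero_lt_iff.2 (pow_ne_zero q hval0))).1 h7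
        exact (pow_eq_one_iff_of_nonneg zero_le hq.ne').1 h8
      have hyW : y ∈ W.ring := by rw [← W.ring.valuation_le_one_iff, h5]
      have hyN : y ∈ N := div_mem (hZN z hz) (hLN (π b z).2)
      obtain ⟨e, he⟩ := FF.exists_residue hffN Q (x := ⟨y, hyN⟩) ((hWQ y hyN).1 hyW)
      have he' : W.ring.valuation (y - algebraMap E U e) < 1 := by
        rw [← ValuationSubring.mem_nonunits_iff, ValuationSubring.mem_nonunits_iff_or]
        rw [ValuationSubring.mem_nonunits_iff_or] at he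
        rcases he with h6 | h6
        · exact Or.inl (congrArg Subtype.val h6)
        · right
          intro h7
          apply h6
          exact (hWQ _ (inv_mem (sub_mem hyN (N.algebraMap_mem e)))).1 h7
      -- its residue is one of finitely many constants
      have hen : e ^ q = ρ b z := by
        have h6 : W.ring.valuation (y ^ q - algebraMap E U e ^ q) < 1 := by
          obtain ⟨g₁, hg₁⟩ : ∃ g₁ ∈ W.ring, y ^ q - algebraMap E U e ^ q =
              g₁ * (y - algebraMap E U e) := by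
            refine ⟨∑ i ∈ Finset.range q, y ^ i * algebraMap E U e ^ (q - 1 - i), ?_, ?_⟩
            · exact W.ring.sum_mem fun i _ => W.ring.mul_mem _ _ (W.ring.pow_mem hyW _)
                (W.ring.pow_mem (W.algebraMap_mem e) _)
            · exact (Commute.all _ _).geom_sum₂_mul q |>.symm
          rw [hg₁.2, map_mul, mul_comm]
          exact mul_lt_one_of_lt_of_le he' ((W.ring.valuation_le_one_iff _).2 hg₁.1)
        have h7 : W.ring.valuation (y ^ q - algebraMap E U (ρ b z)) < 1 := by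
          have h8 : (f' / π b z ^ q - algebraMap E (L0 E K0 (U := U)) (ρ b z) :
              L0 E K0 (U := U)) ∈ b.ring.nonunits := h4
          rw [← ValuationSubring.mem_nonunits_iff, ValuationSubring.mem_nonunits_iff_or, hyn]
          rw [ValuationSubring.mem_nonunits_iff_or] at h8
          rcases h8 with h9 | h9
          · exact Or.inl (congrArg Subtype.val h9)
          · right
            intro h10
            apply h9
            exact (hWb _).1 h10
        have h8 : W.ring.valuation (algebraMap E U (e ^ q - ρ b z)) < 1 := by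
          have h9 : algebraMap E U (e ^ q - ρ b z) = (y ^ q - algebraMap E U (ρ b z)) -
              (y ^ q - algebraMap E U e ^ q) := by
            rw [map_sub, map_pow]
            ring
          rw [h9]
          exact (Valuation.map_sub _ _ _).trans_lt (max_lt h7 h6)
        rw [← ValuationSubring.mem_nonunits_iff, ValuationSubring.mem_nonunits_iff_or] at h8
        rcases h8 with h9 | h9
        · exact sub_eq_zero.1 ((map_eq_zero _).1 h9)
        · exfalso
          apply h9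
          rw [← map_inv₀]
          exact W.algebraMap_mem _
      have hτe : τ e = e := hCb e (Finset.mem_union_left _ (hCr _ _ hen))
      -- the action on the unit
      have hτy : Φ τ y = algebraMap E U α * y := by
        rw [hy, map_div₀, hα, hτπ, mul_div_assoc]
      have hτye : Φ τ (y - algebraMap E U e) = algebraMap E U α * y - algebraMap E U e := by
        rw [map_sub, hτy, hA.const, hτe]
      have hmemN : ∀ x : U, x = y - algebraMap E U e ∨ x = (y - algebraMap E U e)⁻¹ →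
          x ∈ N ∧ Φ τ x ∈ N := by
        intro x hx
        have h6 : y - algebraMap E U e ∈ N := sub_mem hyN (N.algebraMap_mem e)
        have h7 : Φ τ (y - algebraMap E U e) ∈ N := by
          rw [hτye]
          exact sub_mem (mul_mem (N.algebraMap_mem α) hyN) (N.algebraMap_mem e)
        rcases hx with rfl | rfl
        · exact ⟨h6, h7⟩
        · refine ⟨inv_mem h6, ?_⟩
          rw [map_inv₀]
          exact inv_mem h7
      have hτnon : W.ring.valuation (algebraMap E U α * y - algebraMap E U e) < 1 := by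
        rw [← hτye]
        rw [← ValuationSubring.mem_nonunits_iff, ValuationSubring.mem_nonunits_iff_or] at he' ⊢
        rcases he' with h6 | h6
        · exact Or.inl (by rw [h6, map_zero])
        · right
          intro h7
          apply h6
          rw [← map_inv₀] at h7
          obtain ⟨h8, h9⟩ := hmemN _ (Or.inr rfl)
          exact (hWτ _ h8 h9).2 h7
      have hα1 : α = 1 := by
        by_contra hne
        have h6 : (algebraMap E U α * y - algebraMap E U e) - (y - algebraMap E U e) =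
            algebraMap E U (α - 1) * y := by
          rw [map_sub, map_one]
          ring
        have h7 : W.ring.valuation (algebraMap E U (α - 1) * y) < 1 := by
          rw [← h6]
          exact (Valuation.map_sub _ _ _).trans_lt (max_lt hτnon he')
        rw [map_mul, h5, mul_one] at h7
        rw [← ValuationSubring.mem_nonunits_iff, ValuationSubring.mem_nonunits_iff_or] at h7
        rcases h7 with h8 | h8
        · exact hne (sub_eq_zero.1 ((map_eq_zero _).1 h8))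
        · apply h8
          rw [← map_inv₀]
          exact W.algebraMap_mem _
      rw [hα, hα1, map_one, one_mul]
  -- the general case
  intro v hv O hO τ hτ c Φ hc hA z hz
  obtain ⟨O₁, F₁, p, f, hD⟩ := hFR k E v
  obtain ⟨g, hg⟩ := exists_conj_val (L := k) (Ω := E) O₁ O (fun x =>
    (hD.above x).trans (hO x).symm)
  have hg' : ∀ x, g x ∈ O ↔ x ∈ O₁ := hg
  have hτ₁ : Inert O₁ (g⁻¹ * τ * g).toRingEquiv := by
    have h1 : ∀ x, g ((g⁻¹ * τ * g) x) = τ (g x) := by
      intro x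
      show g (g.symm (τ (g x))) = _
      exact AlgEquiv.apply_symm_apply g _
    constructor
    · intro x
      show (g⁻¹ * τ * g) x ∈ O₁ ↔ x ∈ O₁
      rw [← hg', h1, ← hg' x]
      exact hτ.stab (g x)
    · intro x hx
      show O₁.valuation ((g⁻¹ * τ * g) x - x) < 1
      rw [← nonunit_iff99 (O := O₁) (O' := O) g.toRingEquiv hg']
      show O.valuation (g ((g⁻¹ * τ * g) x - x)) < 1
      rw [map_sub, h1]
      exact hτ.res _ ((hg' x).2 hx)
  have h2 := hmain v hv O₁ F₁ p f hD _ hτ₁ c Φ hc hA (Φ g⁻¹ z) (hstab c Φ hc hA g⁻¹ z hz)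
  have h3 : τ = g * (g⁻¹ * τ * g) * g⁻¹ := by group
  rw [h3, act_mul99, act_mul99, h2]
  exact (act_inv99 Φ g z).1

/-- Characters of order dividing `ℓ ^ m` which are unramified outside `Bad` are trivial on one open
subgroup. -/
theorem char_fin99 (hHF : StmtHF) {k E : Type} [Field k] [NumberField k] [Field E] [IsAlgClosed E]
    [CharZero E] [Algebra k E] [Algebra.IsAlgebraic k E] {ℓ : ℕ} (hℓ : ℓ.Prime) (hμ : HasMu k ℓ)
    (Bad : Set (Pr k)) (hBad : Bad.Finite)
    (X : Set ((E ≃ₐ[k] E) → E)) : ∀ (m : ℕ) (L : IntermediateField k E), FiniteDimensional k L →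
    (∀ χ ∈ X,
      (∀ g g' : E ≃ₐ[k] E, (∀ x ∈ L, g x = x) → (∀ x ∈ L, g' x = x) → χ (g * g') = χ g * χ g') ∧
      (∀ g : E ≃ₐ[k] E, (∀ x ∈ L, g x = x) → χ g ^ ℓ ^ m = 1) ∧
      (∃ L' : IntermediateField k E, FiniteDimensional k L' ∧
        ∀ g : E ≃ₐ[k] E, (∀ x ∈ L, g x = x) → (∀ x ∈ L', g x = x) → χ g = 1) ∧
      ∀ v ∉ Bad, ∀ O : ValuationSubring E, OverV v O → ∀ τ : E ≃ₐ[k] E, (∀ x ∈ L, τ x = x) →
        Inert O τ.toRingEquiv → χ τ = 1) →
    ∃ L₁ : IntermediateField k E, FiniteDimensional k L₁ ∧ L ≤ L₁ ∧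
      ∀ χ ∈ X, ∀ g : E ≃ₐ[k] E, (∀ x ∈ L₁, g x = x) → χ g = 1 := by
  classical
  intro m
  induction m with
  | zero =>
    intro L hL h
    refine ⟨L, hL, le_refl _, fun χ hχ g hg => ?_⟩
    have h1 := (h χ hχ).2.1 g hg
    rwa [pow_zero, pow_one] at h1
  | succ m ih =>
    intro L hL h
    have hS := hHF k E ℓ hℓ hμ L hL Bad hBad
    set S := {χ : L.fixingSubgroup →* rootsOfUnity ℓ k | (∃ L' : IntermediateField k E,
        FiniteDimensional k L' ∧
        ∀ g : L.fixingSubgroup, (∀ x ∈ L', (g : E ≃ₐ[k] E) x = x) → χ g = 1) ∧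
      ∀ v ∉ Bad, ∀ O : ValuationSubring E, OverV v O → ∀ τ : L.fixingSubgroup,
        Inert O (τ : E ≃ₐ[k] E).toRingEquiv → χ τ = 1} with hSdef
    have hfinS : Finite S := hS
    choose LS hLS hLS' using fun ψ : S => ψ.2.1
    set L' : IntermediateField k E := L ⊔ ⨆ ψ : S, LS ψ with hL'
    have hfd1 : FiniteDimensional k (⨆ ψ : S, LS ψ : IntermediateField k E) :=
      IntermediateField.finiteDimensional_iSup_of_finite
    have hfd : FiniteDimensional k L' := IntermediateField.finiteDimensional_sup L _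
    have hLL' : L ≤ L' := le_sup_left
    have hfix : ∀ g : E ≃ₐ[k] E, g ∈ L.fixingSubgroup ↔ ∀ x ∈ L, g x = x :=
      fun g => IntermediateField.mem_fixingSubgroup_iff L g
    obtain ⟨L₁, h1, h2, h3⟩ := ih L' hfd (fun χ hχ => by
      obtain ⟨a1, a2, ⟨L2, a3, a3'⟩, a4⟩ := h χ hχ
      refine ⟨fun g g' hg hg' => a1 g g' (fun x hx => hg x (hLL' hx)) fun x hx => hg' x (hLL' hx),
        fun g hg => ?_, ⟨L2, a3, fun g hg => a3' g fun x hx => hg x (hLL' hx)⟩,
        fun v hv O hO τ hτ => a4 v hv O hO τ fun x hx => hτ x (hLL' hx)⟩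
      -- the character of order `ℓ`
      have hsq : ∀ g : E ≃ₐ[k] E, (∀ x ∈ L, g x = x) → (χ g ^ ℓ ^ m) ^ ℓ = 1 := by
        intro g hg
        rw [← pow_mul, ← pow_succ]
        exact a2 g hg
      have hL1 : ∀ x ∈ L, (1 : E ≃ₐ[k] E) x = x := fun x _ => rfl
      have hχ1 : χ 1 = 1 := by
        have h5 := a1 1 1 hL1 hL1
        have h6 : χ 1 ≠ 0 := by
          intro h0
          have h7 := a2 1 hL1
          rw [h0, zero_pow (pow_pos hℓ.pos _).ne'] at h7
          exact zero_ne_one h7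
        rw [mul_one] at h5
        exact (mul_right_cancel₀ h6 (h5.symm.trans (one_mul _).symm))
      let lift : E → rootsOfUnity ℓ k := fun x =>
        if h1 : ∃ ξ : rootsOfUnity ℓ k, algebraMap k E ((ξ : kˣ) : k) = x then h1.choose else 1
      have hlift : ∀ x : E, x ^ ℓ = 1 → algebraMap k E ((lift x : kˣ) : k) = x := by
        intro x hx
        have h1 := mu_lift99 hℓ.pos hμ hx
        have h2 : lift x = h1.choose := dif_pos h1
        rw [h2]
        exact h1.choose_spec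
      have hinj : ∀ ξ ξ' : rootsOfUnity ℓ k, algebraMap k E ((ξ : kˣ) : k) =
          algebraMap k E ((ξ' : kˣ) : k) → ξ = ξ' := by
        intro ξ ξ' h1
        exact Subtype.ext (Units.ext ((algebraMap k E).injective h1))
      have hlift1 : lift 1 = 1 := by
        apply hinj
        rw [hlift 1 (one_pow _)]
        simp
      let ψ : L.fixingSubgroup →* rootsOfUnity ℓ k :=
        { toFun := fun g => lift (χ (g : E ≃ₐ[k] E) ^ ℓ ^ m)
          map_one' := by
            rw [OneMemClass.coe_one, hχ1, one_pow, hlift1]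
          map_mul' := by
            intro g g'
            have hg := (hfix _).1 g.2
            have hg' := (hfix _).1 g'.2
            apply hinj
            have h5 : χ ((g * g' : L.fixingSubgroup) : E ≃ₐ[k] E) ^ ℓ ^ m =
                χ (g : E ≃ₐ[k] E) ^ ℓ ^ m * χ (g' : E ≃ₐ[k] E) ^ ℓ ^ m := by
              rw [Subgroup.coe_mul, a1 _ _ hg hg', mul_pow]
            have h6 : (χ (g : E ≃ₐ[k] E) ^ ℓ ^ m * χ (g' : E ≃ₐ[k] E) ^ ℓ ^ m) ^ ℓ = 1 := by
              rw [mul_pow, hsq _ hg, hsq _ hg', one_mul]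
            rw [h5, hlift _ h6, Subgroup.coe_mul, Units.val_mul, map_mul, hlift _ (hsq _ hg),
              hlift _ (hsq _ hg')] }
      have hψ : ∀ g : L.fixingSubgroup, algebraMap k E ((ψ g : kˣ) : k) =
          χ (g : E ≃ₐ[k] E) ^ ℓ ^ m := fun g => hlift _ (hsq _ ((hfix _).1 g.2))
      have hψS : ψ ∈ S := by
        refine ⟨⟨L2, a3, fun g hg => ?_⟩, fun v hv O hO τ hτ => ?_⟩
        · apply hinj
          rw [hψ, a3' g ((hfix _).1 g.2) hg, one_pow]
          simp
        · apply hinj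
          rw [hψ, a4 v hv O hO τ ((hfix _).1 τ.2) hτ, one_pow]
          simp
      have h5 : ψ ⟨g, (hfix g).2 fun x hx => hg x (hLL' hx)⟩ = 1 := by
        refine hLS' ⟨ψ, hψS⟩ _ fun x hx => hg x ?_
        exact (le_sup_right : _ ≤ L') ((le_iSup LS ⟨ψ, hψS⟩) hx)
      have h6 := hψ ⟨g, (hfix g).2 fun x hx => hg x (hLL' hx)⟩
      rw [h5] at h6
      refine Eq.trans h6.symm ?_
      simp)
    exact ⟨L₁, h1, hLL'.trans h2, h3⟩

/-- BLOCK FIN -/
theorem fin (hLM : StmtLM) (hFT : M.StmtFT) (hHF : StmtHF) (hFR : LN.StmtFR) (hAR : L.StmtAR) :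
    StmtFIN := by
  intro k K0 E U _ _ _ _ _ _ _ _ _ _ _ _ n₀ ℓ h r hn₀ hℓ hℓn hμ G m
  classical
  have hcE : CharZero E := charZero_of_injective_algebraMap (algebraMap k E).injective
  have hcU : CharZero U := charZero_of_injective_algebraMap (algebraMap k U).injective
  have hclE : IsAlgClosed E := G.clE
  have halgE : Algebra.IsAlgebraic k E := G.algE
  have hclos : IsAlgClosure k E := ⟨G.clE, G.algE⟩
  have hgalE : IsGalois k E := IsAlgClosure.isGalois k E
  have ff := G.ff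
  have hnorm : Normal K0 U := G.normal
  have hn2 : 2 ≤ n₀ := hℓ.two_le.trans (Nat.le_of_dvd hn₀ hℓn)
  have hint : ∀ z : U, IsIntegral K0 z := fun z => hnorm.isIntegral z
  have hKL : ∀ x : K0, algebraMap K0 U x ∈ L0 E K0 (U := U) :=
    fun x => IntermediateField.subset_adjoin _ _ ⟨x, rfl⟩
  by_cases hex : ∃ (c₀ : k) (Φ₀ : (E ≃ₐ[k] E) →* (U ≃+* U)), c₀ ≠ 0 ∧ Act (K0 := K0) n₀ r c₀ Φ₀
  swap
  · refine ⟨Empty, inferInstance, fun i => i.elim, fun i => i.elim, fun i => i.elim, ?_⟩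
    intro c Φ hc hA
    exact absurd ⟨c, Φ, hc, hA⟩ hex
  obtain ⟨c₀, Φ₀, hc₀, hA₀⟩ := hex
  obtain ⟨n, hnm⟩ : ∃ n : ℕ, n = ℓ ^ m := ⟨_, rfl⟩
  have hn : 0 < n := by rw [hnm]; exact pow_pos hℓ.pos m
  rw [← hnm]
  obtain ⟨T, hT0, hT⟩ := hFT E (L0 E K0 (U := U)) ff n hn
  -- the roots of the elements of `T`
  let s : L0 E K0 (U := U) → U := fun t =>
    if hs : ∃ y : U, UR E K0 n y ∧ y ^ n = (t : U) then hs.choose else 1
  have hs : ∀ (t : L0 E K0 (U := U)) (y : U), UR E K0 n y → y ^ n = (t : U) →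
      UR E K0 n (s t) ∧ s t ^ n = (t : U) := by
    intro t y hy hyt
    have h1 : ∃ y : U, UR E K0 n y ∧ y ^ n = (t : U) := ⟨y, hy, hyt⟩
    have h2 : s t = h1.choose := dif_pos h1
    rw [h2]
    exact h1.choose_spec
  let Z : Finset U := ((T.image s).biUnion fun z => ((minpoly K0 z).aroots U).toFinset).filter
    (UR E K0 n)
  have hmemZ : ∀ x, x ∈ Z ↔ (∃ t ∈ T, Polynomial.aeval x (minpoly K0 (s t)) = 0) ∧
      UR E K0 n x := by
    intro x
    rw [Finset.mem_filter, Finset.mem_biUnion]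
    refine and_congr_left fun _ => ?_
    constructor
    · rintro ⟨z, hz, hx⟩
      obtain ⟨t, ht, rfl⟩ := Finset.mem_image.1 hz
      rw [Multiset.mem_toFinset, Polynomial.mem_aroots] at hx
      exact ⟨t, ht, hx.2⟩
    · rintro ⟨t, ht, hx⟩
      refine ⟨s t, Finset.mem_image_of_mem _ ht, ?_⟩
      rw [Multiset.mem_toFinset, Polynomial.mem_aroots]
      exact ⟨minpoly.ne_zero (hint _), hx⟩
  have hZ : ∀ z ∈ Z, UR E K0 n z := fun z hz => ((hmemZ z).1 hz).2
  have hstab : ∀ (c : k) (Φ : (E ≃ₐ[k] E) →* (U ≃+* U)), c ≠ 0 → Act (K0 := K0) n₀ r c Φ →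
      ∀ g, ∀ z ∈ Z, Φ g z ∈ Z := by
    intro c Φ hc hA g z hz
    obtain ⟨⟨t, ht, h1⟩, h2⟩ := (hmemZ z).1 hz
    refine (hmemZ _).2 ⟨⟨t, ht, ?_⟩, act_UR99 ff hA g h2⟩
    let T' : U →ₐ[K0] U := { (Φ g : U →+* U) with commutes' := hA.fixK g }
    have h3 : Polynomial.aeval (T' z) (minpoly K0 (s t)) =
        T' (Polynomial.aeval z (minpoly K0 (s t))) := Polynomial.aeval_algHom_apply T' z _
    rw [h1, map_zero] at h3
    exact h3
  -- inertia acts trivially
  obtain ⟨Bad, hBad, hin⟩ := inert_fix99 hLM hFR hAR hn2 G hn Z hZ hstab c₀ Φ₀ hA₀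
  -- the first level
  choose Lz hLz hLz' using hA₀.cont
  have hfin1 : Finite Z := inferInstance
  let L : IntermediateField k E := (⨆ z : Z, Lz z) ⊔ IntermediateField.adjoin k {ζ : E | ζ ^ n = 1}
  have hfdz : ∀ z : Z, FiniteDimensional k (Lz z) := fun z => hLz z
  have hfd1 : FiniteDimensional k (⨆ z : Z, Lz z : IntermediateField k E) :=
    IntermediateField.finiteDimensional_iSup_of_finite
  have hroots : {ζ : E | ζ ^ n = 1}.Finite := by
    have h1 := Polynomial.rootSet_finite (Polynomial.X ^ n - 1 : Polynomial E) E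
    refine h1.subset fun ζ hζ => ?_
    rw [Polynomial.mem_rootSet]
    refine ⟨Polynomial.X_pow_sub_C_ne_zero hn 1, ?_⟩
    have h2 : ζ ^ n = 1 := hζ
    simp [h2]
  have hfd2 : FiniteDimensional k (IntermediateField.adjoin k {ζ : E | ζ ^ n = 1}) := by
    have h1 : Finite {ζ : E | ζ ^ n = 1} := hroots
    exact IntermediateField.finiteDimensional_adjoin fun x _ => Algebra.IsIntegral.isIntegral x
  have hfdL : FiniteDimensional k L := IntermediateField.finiteDimensional_sup _ _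
  have hL1 : ∀ g : E ≃ₐ[k] E, (∀ x ∈ L, g x = x) → ∀ z ∈ Z, Φ₀ g z = z := by
    intro g hg z hz
    refine hLz' z g fun x hx => hg x ?_
    exact (le_sup_left : _ ≤ L) ((le_iSup (fun z : Z => Lz z) ⟨z, hz⟩) hx)
  have hL2 : ∀ g : E ≃ₐ[k] E, (∀ x ∈ L, g x = x) → ∀ ζ : E, ζ ^ n = 1 → g ζ = ζ := by
    intro g hg ζ hζ
    exact hg ζ ((le_sup_right : _ ≤ L) (IntermediateField.subset_adjoin _ _ hζ))
  -- the characters
  let X : Set ((E ≃ₐ[k] E) → E) := {χ | ∃ (c : k) (Φ : (E ≃ₐ[k] E) →* (U ≃+* U)) (z : U), c ≠ 0 ∧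
    Act (K0 := K0) n₀ r c Φ ∧ z ∈ Z ∧ ∀ g : E ≃ₐ[k] E, (∀ x ∈ L, g x = x) →
      χ g ^ n = 1 ∧ Φ g z = algebraMap E U (χ g) * z}
  obtain ⟨L₁, hfdL₁, hLL₁, hchar⟩ := char_fin99 hHF hℓ hμ Bad hBad X m L hfdL (by
    rintro χ ⟨c, Φ, z, hc, hA, hz, hχ⟩
    have hz0 : z ≠ 0 := (hZ z hz).1
    have huniq : ∀ a b : E, algebraMap E U a * z = algebraMap E U b * z → a = b := fun a b hab =>
      (algebraMap E U).injective (mul_right_cancel₀ hz0 hab)
    refine ⟨fun g g' hg hg' => ?_, fun g hg => ?_, ?_, fun v hv O hO τ hτ hI => ?_⟩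
    · have hgg : ∀ x ∈ L, (g * g') x = x := by
        intro x hx
        show g (g' x) = x
        rw [hg' x hx, hg x hx]
      have h1 := (hχ _ hgg).2
      rw [act_mul99, (hχ g' hg').2, map_mul, hA.const, hL2 g hg _ (hχ g' hg').1, (hχ g hg).2] at h1
      apply huniq
      rw [← h1, map_mul]
      ring
    · rw [← hnm]
      exact (hχ g hg).1
    · obtain ⟨L', h1, h2⟩ := hA.cont z
      refine ⟨L', h1, fun g hg hg' => ?_⟩
      apply huniq
      rw [← (hχ g hg).2, h2 g hg', map_one, one_mul]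
    · apply huniq
      rw [← (hχ τ hτ).2, hin v hv O hO τ hI c Φ hc hA z hz, map_one, one_mul])
  have hL₁ : ∀ (c : k) (Φ : (E ≃ₐ[k] E) →* (U ≃+* U)), c ≠ 0 → Act (K0 := K0) n₀ r c Φ →
      ∀ g : E ≃ₐ[k] E, (∀ x ∈ L₁, g x = x) → ∀ z ∈ Z, Φ g z = z := by
    intro c Φ hc hA g hg z hz
    have h1 : ∀ g : E ≃ₐ[k] E, ∃ ζ : E, (∀ x ∈ L, g x = x) →
        ζ ^ n = 1 ∧ Φ g z = algebraMap E U ζ * z := by
      intro g
      by_cases hg : ∀ x ∈ L, g x = x
      · obtain ⟨ζ, hζ⟩ := act_eig99 hA hA₀ g hn (hZ z hz) (hL1 g hg z hz)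
        exact ⟨ζ, fun _ => hζ⟩
      · exact ⟨1, fun h => absurd h hg⟩
    choose χ hχ using h1
    have h2 := hchar χ ⟨c, Φ, z, hc, hA, hz, hχ⟩ g hg
    have h3 := (hχ g fun x hx => hg x (hLL₁ hx)).2
    rw [h3, h2, map_one, one_mul]
  -- the finitely many restrictions to `Z`
  let A : Type := {p : k × ((E ≃ₐ[k] E) →* (U ≃+* U)) // p.1 ≠ 0 ∧ Act (K0 := K0) n₀ r p.1 p.2}
  let lift : (L₁ →ₐ[k] E) → (E ≃ₐ[k] E) := fun σ =>
    if h1 : ∃ g : E ≃ₐ[k] E, ∀ x : L₁, g x = σ x then h1.choose else 1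
  have hlift : ∀ g : E ≃ₐ[k] E, ∀ x : L₁,
      lift ((g : E →ₐ[k] E).comp L₁.val) (x : E) = g x := by
    intro g
    have h1 : ∃ g' : E ≃ₐ[k] E, ∀ x : L₁, g' x = ((g : E →ₐ[k] E).comp L₁.val) x :=
      ⟨g, fun x => rfl⟩
    have h2 : lift ((g : E →ₐ[k] E).comp L₁.val) = h1.choose := dif_pos h1
    intro x
    rw [h2]
    exact h1.choose_spec x
  let F : A → ((L₁ →ₐ[k] E) → Z → Z) := fun p σ z =>
    ⟨p.1.2 (lift σ) z, hstab p.1.1 p.1.2 p.2.1 p.2.2 _ _ z.2⟩
  have hfinH : Finite (L₁ →ₐ[k] E) := inferInstance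
  have hfinF : Finite (Set.range F) := inferInstance
  have hF : ∀ p q : A, F p = F q → ∀ (g : E ≃ₐ[k] E) (z : U), z ∈ Z → p.1.2 g z = q.1.2 g z := by
    intro p q hpq g z hz
    set g₁ := lift ((g : E →ₐ[k] E).comp L₁.val) with hg₁
    have h1 : ∀ x ∈ L₁, (g₁⁻¹ * g) x = x := by
      intro x hx
      show g₁.symm (g x) = x
      rw [AlgEquiv.symm_apply_eq]
      exact (hlift g ⟨x, hx⟩).symm
    have h2 : g = g₁ * (g₁⁻¹ * g) := by group
    have h3 : p.1.2 g z = p.1.2 g₁ z := by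
      conv_lhs => rw [h2]
      rw [act_mul99, hL₁ _ _ p.2.1 p.2.2 _ h1 z hz]
    have h4 : q.1.2 g z = q.1.2 g₁ z := by
      conv_lhs => rw [h2]
      rw [act_mul99, hL₁ _ _ q.2.1 q.2.2 _ h1 z hz]
    have h5 := congrFun (congrFun hpq ((g : E →ₐ[k] E).comp L₁.val)) ⟨z, hz⟩
    have h6 : p.1.2 g₁ z = q.1.2 g₁ z := congrArg Subtype.val h5
    rw [h3, h4, h6]
  refine ⟨Set.range F, hfinF, fun i => i.2.choose.1.1, fun i => i.2.choose.1.2,
    fun i => i.2.choose.2, ?_⟩
  intro c Φ hc hA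
  let p : A := ⟨(c, Φ), hc, hA⟩
  have hp : ∃ q, F q = F p := ⟨p, rfl⟩
  refine ⟨⟨F p, hp⟩, fun g w hw => ?_⟩
  have hq := hp.choose_spec
  set q : A := hp.choose with hqdef
  show Φ g w = q.1.2 g w
  have hZg := hF p q hq.symm g
  obtain ⟨hw0, f, hf, hd⟩ := id hw
  have hf0 : f ≠ 0 := by
    intro h0
    rw [h0] at hf
    exact pow_ne_zero n hw0 hf.symm
  obtain ⟨t, ht, l, hl⟩ := hT f hf0 hd
  have hl0 : l ≠ 0 := by
    intro h0
    apply hf0
    rw [hl, h0, zero_pow hn.ne', mul_zero]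
  have hl0' : (l : U) ≠ 0 := fun h0 => hl0 (Subtype.ext h0)
  have h1 : (w / l) ^ n = (t : U) := by
    rw [div_pow, ← hf, hl]
    show ((t : U) * (l : U) ^ n) / (l : U) ^ n = t
    rw [mul_div_cancel_right₀ _ (pow_ne_zero n hl0')]
  have h2 : UR E K0 n (w / l) := by
    refine ⟨div_ne_zero hw0 hl0', t, h1.symm, fun P => ?_⟩
    have h3 := hd P
    rw [hl, FF.ord_mul ff P (hT0 t ht) (pow_ne_zero n hl0), FF.ord_pow ff P hl0] at h3
    exact (dvd_add_left (Dvd.intro _ rfl)).1 h3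
  obtain ⟨h3, h4⟩ := hs t _ h2 h1
  have h5 : s t ∈ Z := (hmemZ _).2 ⟨⟨t, ht, minpoly.aeval _ _⟩, h3⟩
  have h6 : (w / l / s t) ^ n = 1 := by
    rw [div_pow, h1, h4, div_self]
    rw [← h4]
    exact pow_ne_zero n h3.1
  obtain ⟨ζ, h7, h8⟩ := root_const99 (E := E) hn h6
  have h9 : w = algebraMap E U ζ * s t * l := by
    rw [h8, div_mul_cancel₀ _ h3.1, div_mul_cancel₀ _ hl0']
  have h10 : Φ g (l : U) = q.1.2 g (l : U) := by
    refine eq_on_L0_99 (Φ g : U →+* U) (q.1.2 g : U →+* U) (fun e => ?_) (fun c => ?_) l.2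
    · exact (hA.const g e).trans (q.2.2.const g e).symm
    · exact (hA.fixK g c).trans (q.2.2.fixK g c).symm
  have h11 : Φ g (s t) = q.1.2 g (s t) := hZg (s t) h5
  rw [h9, map_mul, map_mul, map_mul, map_mul, h10, h11, hA.const, q.2.2.const]

end Pool.Agent.ML
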