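import Pool.Agent.Helper45.ML.Defs
import Pool.Agent.Helper13.M.Fin1
import Pool.Agent.Helper10.L.LOC
import Pool.Agent.Helper79.LN.LOC
import Pool.Agent.Helper79.LN.FR

/-!
# Project ML, block LFT: the Frobenius elements of `Ctx` lift to the algebraic closure
-/

set_option autoImplicit false

namespace Pool.Agent.ML

open VC IntermediateField NumberField IsDedekindDomain Pool.Agent.SC
open Pool.Agent.L (Inert L0 MM SamePlace OverV tO tA mem_tO)
open Pool.Agent.LN (Geo Act HasSec GoodCurve IsRam DecPt)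
open Pool.Agent.M (UR NN Moves OverPl inL0)
open Pool.Agent.HG (Pr nm Ctx Gd Over)

section below

variable {k E L : Type} [Field k] [NumberField k] [Field E] [Algebra k E] [Field L]
  [NumberField L] [Algebra k L]

/-- the prime of `L` below `O` -/
theorem exists_below99 (ι : L →ₐ[k] E) {v : Pr k} {O : ValuationSubring E} {F : E ≃ₐ[k] E}
    {p n : ℕ} (hD : DecPt v O F p n) :
    ∃ P : Pr L, (∀ z : L, ι z ∈ O ↔ P.valuation L z ≤ 1) ∧
      P.asIdeal.comap (algebraMap (𝓞 k) (𝓞 L)) = v.asIdeal := by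
  let R : ValuationSubring L := O.comap (ι : L →+* E)
  have hR : ∀ z, z ∈ R ↔ ι z ∈ O := fun z => Iff.rfl
  have hint : ∀ b : 𝓞 L, algebraMap (𝓞 L) L b ∈ R := by
    intro b
    rw [hR]
    have h1 : IsIntegral ℤ (ι (b : L)) := (b.2 : IsIntegral ℤ (b : L)).map (ι : L →ₐ[k] E)
    have h2 : IsIntegral O (ι (b : L)) := h1.tower_top
    obtain ⟨y, hy⟩ := IsIntegrallyClosed.isIntegral_iff.mp h2
    change ι (b : L) ∈ O
    rw [← hy]
    exact y.2
  have hne : R ≠ ⊤ := by
    intro h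
    have hp := hD.frob.residue
    have hcE : CharZero E := charZero_of_injective_algebraMap (algebraMap k E).injective
    have hp0 : (p : E) ≠ 0 := by exact_mod_cast hD.frob.prime.ne_zero
    have h1 : ((p : L)⁻¹) ∈ R := by rw [h]; trivial
    rw [hR, map_inv₀, map_natCast, ← O.valuation_le_one_iff, map_inv₀] at h1
    have h2 : O.valuation (p : E) ≠ 0 := (Valuation.ne_zero_iff _).2 hp0
    rw [inv_le_one₀ (zero_lt_iff.2 h2)] at h1
    exact absurd hp (not_lt.2 h1)
  let P : Pr L := hosR R hint hne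
  have hP : ∀ z : L, ι z ∈ O ↔ P.valuation L z ≤ 1 := by
    intro z
    rw [← hR, ← Valuation.mem_valuationSubring_iff, valuationSubring_hosR R hint hne]
  refine ⟨P, hP, ?_⟩
  ext a
  rw [Ideal.mem_comap, ← Pool.Agent.HG.val_int_lt, ← Pool.Agent.HG.val_int_lt]
  have e : ((algebraMap (𝓞 k) (𝓞 L) a : 𝓞 L) : L) = algebraMap k L (a : k) :=
    ((IsScalarTower.algebraMap_apply (𝓞 k) k L a).symm.trans
      (IsScalarTower.algebraMap_apply (𝓞 k) (𝓞 L) L a)).symm
  rw [e, ← M.lt_iff13 hP, AlgHom.commutes]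
  rw [Pool.Agent.HG.val_lt_iff, ← hD.above, map_inv₀, ← ValuationSubring.mem_nonunits_iff,
    ValuationSubring.mem_nonunits_iff_or, map_eq_zero]

/-- the Frobenius element of `O` is one of the prime below -/
theorem frob_below99 {ι : L →ₐ[k] E} {v : Pr k} {O : ValuationSubring E} {F : E ≃ₐ[k] E}
    {p n : ℕ} (hD : DecPt v O F p n) {P : Pr L} (hP : ∀ z : L, ι z ∈ O ↔ P.valuation L z ≤ 1)
    {σ : L ≃ₐ[k] L} (hσ : ∀ z, F (ι z) = ι (σ z)) (z : L) (hz : P.valuation L z ≤ 1) :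
    P.valuation L (σ z - z ^ nm v) < 1 := by
  rw [← M.lt_iff13 hP, map_sub, map_pow, ← hσ, hD.norm]
  exact hD.frob.frob _ ((hP z).2 hz)

end below

/-- **BLOCK LFT.** -/
theorem lft : StmtLFT := by
  classical
  intro k L E _ _ _ _ _ _ _ _ _ _ ι
  have hac : IsAlgClosure k E := ⟨inferInstance, inferInstance⟩
  have hnE : Normal k E := IsAlgClosure.normal k E
  obtain ⟨α, hα⟩ := Field.exists_primitive_element k L
  obtain ⟨M₁, hM₁, hroots⟩ := Pool.Agent.Helper88.HG.exists_M_roots k L (minpoly k α)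
  have hint : IsIntegral k α := Algebra.IsIntegral.isIntegral α
  refine ⟨M₁, hM₁, fun f X hdvd v hv => ?_⟩
  obtain ⟨p, hp, hpM, hpv⟩ := hv
  obtain ⟨O₀, F₀, q, n, hD⟩ := LN.fr k E v
  obtain ⟨P₀, hP₀, hP₀v⟩ := exists_below99 ι hD
  obtain ⟨σ, hσ⟩ := Pool.Agent.HG.exists_conj' hP₀v (X.comap v)
  have hσ' : ∀ z : L, P₀.valuation L z ≤ 1 ↔ (X.P v).valuation L (σ z) ≤ 1 :=
    Pool.Agent.HG.val_le_conj hσ
  let _ : Algebra L E := (ι : L →+* E).toAlgebra
  have _ : IsScalarTower k L E := IsScalarTower.of_algebraMap_eq fun x => (ι.commutes x).symm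
  have hι : ∀ z : L, algebraMap L E z = ι z := fun _ => rfl
  obtain ⟨g, hg⟩ : ∃ g : E ≃ₐ[k] E, ∀ z : L, g (ι z) = ι (σ z) :=
    ⟨σ.liftNormal E, fun z => AlgEquiv.liftNormal_commutes σ E z⟩
  have hg' : ∀ z : L, g.symm (ι z) = ι (σ.symm z) := by
    intro z
    rw [AlgEquiv.symm_apply_eq, hg, AlgEquiv.apply_symm_apply]
  have hD' := LN.decPt_t g hD
  have hO : ∀ z : L, ι z ∈ tO g O₀ ↔ (X.P v).valuation L z ≤ 1 := by
    intro z
    rw [mem_tO, hg', hP₀, hσ', AlgEquiv.apply_symm_apply]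
  refine ⟨tO g O₀, tA g F₀, q, n, hD', hO, ?_⟩
  obtain ⟨F', hF'⟩ : ∃ F' : L ≃ₐ[k] L, ∀ z : L, tA g F₀ (ι z) = ι (F' z) :=
    ⟨(tA g F₀).restrictNormal L, fun z => (AlgEquiv.restrictNormal_commutes (tA g F₀) L z).symm⟩
  have hfr := frob_below99 hD' hO hF'
  have hov : Over X.M p v (X.P v) := ⟨hp, hpM, hpv, X.comap v⟩
  obtain ⟨hr1, hr2⟩ := hroots X.M p v (X.P v) hdvd hov
  have hroot : ∀ τ : L ≃ₐ[k] L, τ α ∈ (minpoly k α).rootSet L := by
    intro τ
    rw [Polynomial.mem_rootSet]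
    refine ⟨minpoly.ne_zero hint, ?_⟩
    have h1 : Polynomial.aeval (τ α) (minpoly k α) = τ (Polynomial.aeval α (minpoly k α)) :=
      Polynomial.aeval_algHom_apply (τ : L →ₐ[k] L) α _
    rw [h1, minpoly.aeval, map_zero]
  have hα1 : (X.P v).valuation L α ≤ 1 := hr1 α (hroot 1)
  have heq : F' α = X.F v α := by
    by_contra hne
    have h1 := hr2 _ (hroot F') _ (hroot (X.F v)) hne
    have h2 : (X.P v).valuation L (F' α - X.F v α) < 1 := by
      have e : F' α - X.F v α = (F' α - α ^ nm v) - (X.F v α - α ^ nm v) := by ring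
      rw [e]
      exact Valuation.map_sub_lt _ (hfr α hα1) (X.frob v α hα1)
    rw [h1] at h2
    exact lt_irrefl _ h2
  have hall : ∀ z : L, F' z = X.F v z := by
    intro z
    have hz : z ∈ IntermediateField.adjoin k {α} := by rw [hα]; trivial
    induction hz using IntermediateField.adjoin_induction with
    | mem x hx =>
      have hx' : x = α := hx
      rw [hx', heq]
    | algebraMap x => rw [AlgEquiv.commutes, AlgEquiv.commutes]
    | add x y hx hy h1 h2 => rw [map_add, map_add, h1, h2]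
    | inv x hx h => rw [map_inv₀, map_inv₀, h]
    | mul x y hx hy h1 h2 => rw [map_mul, map_mul, h1, h2]
  intro z
  rw [hF', hall]

end Pool.Agent.ML
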