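import Pool.Agent.Helper45.ML.Defs
import Pool.Agent.Helper99.M.PI

/-!
# Project ML, block MU: the places of the abelian unramified levels fixed by `φ`
-/

set_option autoImplicit false

namespace Pool.Agent.ML

open VC IntermediateField NumberField IsDedekindDomain Pool.Agent.SC
open Pool.Agent.L (Inert L0 MM SamePlace OverV)
open Pool.Agent.LN (Geo Act HasSec GoodCurve IsRam DecPt)
open Pool.Agent.M (UR NN Moves OverPl inL0)
open Pool.Agent.HG (Pr nm Ctx Gd)
open Pool.Agent.M (root_const99 L0_le99 mem_NN99 eig99 map_NN99 eq_on_NN99 triv99 conj_lev99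
  place_ext99 map_L0_99 map_UR99 UR_up99)

theorem UR_l99 {E K0 U : Type} [Field E] [Field K0] [Field U] [Algebra E U]
    [Algebra K0 U] [IsAlgClosed E] (ff : IsFunctionField E (L0 E K0 (U := U))) {ℓ m : ℕ}
    (hm : 1 ≤ m) {w : U} (hw : UR E K0 ℓ w) : UR E K0 (ℓ ^ m) w := by
  obtain ⟨j, rfl⟩ : ∃ j, m = j + 1 := ⟨m - 1, by omega⟩
  rw [pow_succ']
  exact UR_up99 ff _ hw

/-- BLOCK MU -/
theorem mU : M.StmtFT → StmtMU := by
  intro hFT k K0 E U _ _ _ _ _ _ _ _ _ _ _ _ n ℓ h r hn0 hℓ hℓn hμ G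
  classical
  have hcE : CharZero E := charZero_of_injective_algebraMap (algebraMap k E).injective
  have hcU : CharZero U := charZero_of_injective_algebraMap (algebraMap k U).injective
  have hclE : IsAlgClosed E := G.clE
  have ff := G.ff
  have hnorm : Normal K0 U := G.normal
  have hℓ0 : 0 < ℓ := hℓ.pos
  have hNZ : NeZero ℓ := ⟨hℓ0.ne'⟩
  have hKL : ∀ x : K0, algebraMap K0 U x ∈ L0 E K0 (U := U) :=
    fun x => IntermediateField.subset_adjoin _ _ ⟨x, rfl⟩
  have hcL : CharZero (L0 E K0 (U := U)) :=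
    charZero_of_injective_algebraMap (algebraMap E (L0 E K0 (U := U))).injective
  have hgal : IsGalois (L0 E K0 (U := U)) U := by
    let aKL : Algebra K0 (L0 E K0 (U := U)) :=
      (RingHom.codRestrict (algebraMap K0 U) (L0 E K0 (U := U)) hKL).toAlgebra
    have sKL : IsScalarTower K0 (L0 E K0 (U := U)) U := IsScalarTower.of_algebraMap_eq fun x => rfl
    have hnL : Normal (L0 E K0 (U := U)) U := Normal.tower_top_of_normal K0 (L0 E K0 (U := U)) U
    exact ⟨⟩
  have halg : Algebra.IsAlgebraic (L0 E K0 (U := U)) U := inferInstance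
  constructor
  · -- the number of places
    obtain ⟨T, hT0, hT⟩ := hFT E (L0 E K0 (U := U)) ff ℓ hℓ0
    -- a root of each `t`
    let s : T → U := fun t =>
      if hs : ∃ y : U, y ^ ℓ = ((t : L0 E K0 (U := U)) : U) then hs.choose else 1
    have hs : ∀ t : T, ∀ y : U, y ^ ℓ = ((t : L0 E K0 (U := U)) : U) →
        s t ^ ℓ = ((t : L0 E K0 (U := U)) : U) := by
      intro t y hy
      have h1 : ∃ y : U, y ^ ℓ = ((t : L0 E K0 (U := U)) : U) := ⟨y, hy⟩
      have h2 : s t = h1.choose := dif_pos h1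
      rw [h2]
      exact h1.choose_spec
    have hsL : ∀ t : T, s t ≠ 0 ∧ s t ^ ℓ ∈ L0 E K0 (U := U) := by
      intro t
      by_cases h1 : ∃ y : U, y ^ ℓ = ((t : L0 E K0 (U := U)) : U)
      · obtain ⟨y, hy⟩ := h1
        have h2 := hs t y hy
        refine ⟨fun h0 => hT0 t t.2 ?_, by rw [h2]; exact t.1.2⟩
        rw [h0, zero_pow hℓ0.ne'] at h2
        exact Subtype.ext h2.symm
      · have h2 : s t = 1 := dif_neg h1
        rw [h2, one_pow]
        exact ⟨one_ne_zero, one_mem _⟩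
    -- automorphisms which agree on the roots agree
    have hagree : ∀ a a' : U ≃ₐ[E] U, (∀ x ∈ L0 E K0 (U := U), a x = x) →
        (∀ x ∈ L0 E K0 (U := U), a' x = x) → (∀ t : T, a (s t) = a' (s t)) →
        ∀ x ∈ NN E K0 ℓ (U := U), a x = a' x := by
      intro a a' ha ha' hst x hx
      refine eq_on_NN99 (E := E) (K0 := K0) (a : U →+* U) (a' : U →+* U)
        (fun e => (a.commutes e).trans (a'.commutes e).symm)
        (fun c => (ha _ (hKL c)).trans (ha' _ (hKL c)).symm) (fun w hw => ?_) hx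
      obtain ⟨hw0, f, hf, hd⟩ := hw
      have hf0 : f ≠ 0 := by
        intro h0
        rw [h0] at hf
        exact pow_ne_zero ℓ hw0 hf.symm
      obtain ⟨t, ht, l, hl⟩ := hT f hf0 hd
      have hl0 : (l : U) ≠ 0 := by
        intro h0
        apply hf0
        have h1 : l = 0 := Subtype.ext h0
        rw [hl, h1, zero_pow hℓ0.ne', mul_zero]
      have h1 : (w / l) ^ ℓ = (t : U) := by
        rw [div_pow, ← hf, hl]
        show ((t : U) * (l : U) ^ ℓ) / (l : U) ^ ℓ = t
        rw [mul_div_cancel_right₀ _ (pow_ne_zero ℓ hl0)]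
      have h2 := hs ⟨t, ht⟩ _ h1
      have hs0 := (hsL ⟨t, ht⟩).1
      have h3 : (w / l / s ⟨t, ht⟩) ^ ℓ = 1 := by
        rw [div_pow, h1, h2, div_self]
        rw [← h2]
        exact pow_ne_zero ℓ hs0
      obtain ⟨ζ, -, h4⟩ := root_const99 (E := E) hℓ0 h3
      have h5 : w = algebraMap E U ζ * s ⟨t, ht⟩ * l := by
        rw [h4, div_mul_cancel₀ _ hs0, div_mul_cancel₀ _ hl0]
      show a w = a' w
      rw [h5, map_mul, map_mul, map_mul, map_mul, a.commutes, a'.commutes, ha _ l.2, ha' _ l.2,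
        hst]
    refine ⟨Nat.card (T → rootsOfUnity ℓ U), fun b => ?_⟩
    by_cases hne : ∃ P0 : Place E (NN E K0 ℓ (U := U)), OverPl b P0
    · obtain ⟨P0, hP0⟩ := hne
      have hex : ∀ P : {P : Place E (NN E K0 ℓ (U := U)) | OverPl b P},
          ∃ a : U ≃ₐ[E] U, (∀ x ∈ L0 E K0 (U := U), a x = x) ∧
            ∀ (x : U) (hx : x ∈ NN E K0 ℓ (U := U)) (hx' : a x ∈ NN E K0 ℓ (U := U)),
            (⟨x, hx⟩ : NN E K0 ℓ (U := U)) ∈ P0.ring ↔
              (⟨a x, hx'⟩ : NN E K0 ℓ (U := U)) ∈ P.1.ring :=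
        fun P => conj_lev99 b P0 P.1 hP0 P.2
      choose a ha1 ha2 using hex
      have hroot : ∀ P t, (a P (s t) / s t) ^ ℓ = 1 := by
        intro P t
        rw [div_pow, ← map_pow, ha1 P _ (hsL t).2, div_self]
        exact pow_ne_zero ℓ (hsL t).1
      let g : {P : Place E (NN E K0 ℓ (U := U)) | OverPl b P} → (T → rootsOfUnity ℓ U) :=
        fun P t => rootsOfUnity.mkOfPowEq (a P (s t) / s t) (hroot P t)
      have hg : Function.Injective g := by
        intro P P' hPP
        apply Subtype.ext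
        refine place_ext99 hℓ0 P0 P.1 P'.1 (a P) (a P') (ha1 P) (ha2 P) (ha2 P') ?_
        refine hagree _ _ (ha1 P) (ha1 P') fun t => ?_
        have h1 := congrFun hPP t
        have h2 : a P (s t) / s t = a P' (s t) / s t := by
          have h3 := congrArg (fun z : rootsOfUnity ℓ U => ((z : Uˣ) : U)) h1
          exact h3
        exact (div_left_inj' (hsL t).1).1 h2
      have hfin : Finite {P : Place E (NN E K0 ℓ (U := U)) | OverPl b P} :=
        Finite.of_injective g hg
      exact ⟨Set.toFinite _, Nat.card_le_card_of_injective g hg⟩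
    · have h1 : {P : Place E (NN E K0 ℓ (U := U)) | OverPl b P} = ∅ := by
        rw [Set.eq_empty_iff_forall_notMem]
        exact fun P hP => hne ⟨P, hP⟩
      rw [h1]
      refine ⟨Set.finite_empty, ?_⟩
      rw [Nat.card_of_isEmpty]
      exact Nat.zero_le _
  · -- the uniqueness
    intro c Φ hc hA m σ hm hQM b P P' Q Q' hbP hbP' hPQ hPQ' hmQ hmQ'
    have hn0 : 0 < ℓ ^ m := pow_pos hℓ0 m
    have hover : ∀ (P : Place E (NN E K0 ℓ (U := U))) (Q : Place E (NN E K0 (ℓ ^ m) (U := U))),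
        OverPl b P → OverPl P Q → OverPl b Q := by
      intro P Q h1 h2 x hx hx'
      exact (h1 x hx (L0_le99 hx)).trans (h2 x (L0_le99 hx) hx')
    obtain ⟨a, ha, haQ⟩ := conj_lev99 b Q Q' (hover P Q hbP hPQ) (hover P' Q' hbP' hPQ')
    -- `Φ σ` and its inverse
    have hE := hA.const σ
    have hK := hA.fixK σ
    have hE' : ∀ e : E, Φ σ⁻¹ (algebraMap E U e) = algebraMap E U (σ.symm e) := hA.const σ⁻¹
    have hK' := hA.fixK σ⁻¹
    have h1 : ∀ x, Φ σ (Φ σ⁻¹ x) = x := by
      intro x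
      have h3 : (Φ σ * Φ σ⁻¹) x = x := by rw [← map_mul, mul_inv_cancel, map_one]; rfl
      exact h3
    have h2 : ∀ x, Φ σ⁻¹ (Φ σ x) = x := by
      intro x
      have h3 : (Φ σ⁻¹ * Φ σ) x = x := by rw [← map_mul, inv_mul_cancel, map_one]; rfl
      exact h3
    have hUR : ∀ w : U, UR E K0 (ℓ ^ m) w → UR E K0 (ℓ ^ m) (Φ σ w) :=
      fun w hw => map_UR99 ff (Φ σ) (Φ σ⁻¹) σ hE hK hE' hK' h1 h2 hw
    have hNφ : ∀ x ∈ NN E K0 (ℓ ^ m) (U := U), Φ σ x ∈ NN E K0 (ℓ ^ m) (U := U) := by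
      intro x hx
      unfold NN at hx
      induction hx using IntermediateField.adjoin_induction with
      | mem y hy =>
        rcases hy with ⟨c, rfl⟩ | hy
        · rw [hK]
          exact L0_le99 (hKL c)
        · exact mem_NN99 (hUR y hy)
      | algebraMap e =>
        rw [hE]
        exact (NN E K0 (ℓ ^ m) (U := U)).algebraMap_mem _
      | add y z _ _ h1 h2 => rw [map_add]; exact add_mem h1 h2
      | inv y _ h1 => rw [map_inv₀]; exact inv_mem h1
      | mul y z _ _ h1 h2 => rw [map_mul]; exact mul_mem h1 h2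
    -- the conjugate of `a`
    let a' : U ≃ₐ[E] U := AlgEquiv.ofRingEquiv (f := ((Φ σ).trans a.toRingEquiv).trans (Φ σ⁻¹)) (by
      intro e
      show Φ σ⁻¹ (a (Φ σ (algebraMap E U e))) = _
      rw [hE, a.commutes, hE', AlgEquiv.symm_apply_apply])
    have ha'v : ∀ x, a' x = Φ σ⁻¹ (a (Φ σ x)) := fun x => rfl
    have ha'L : ∀ x ∈ L0 E K0 (U := U), a' x = x := by
      intro x hx
      rw [ha'v, ha _ (map_L0_99 (Φ σ) σ hE hK hx), h2]
    have hsymL : ∀ x ∈ L0 E K0 (U := U), a.symm x = x := by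
      intro x hx
      rw [AlgEquiv.symm_apply_eq, ha x hx]
    have hbL : ∀ x ∈ L0 E K0 (U := U), (a'.trans a.symm) x = x := by
      intro x hx
      show a.symm (a' x) = x
      rw [ha'L x hx, hsymL x hx]
    have hcomm : ∀ w : U, UR E K0 (ℓ ^ m) w → a (Φ σ w) = Φ σ (a w) := by
      intro w hw
      have h3 : (a'.trans a.symm) w = w := by
        refine triv99 ff hn0 Q (a'.trans a.symm) hbL (fun x hx hx' => ?_) hw
        have h4 := hNφ x hx
        have h5 := map_NN99 hn0 a ha h4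
        have h6 : a' x ∈ NN E K0 (ℓ ^ m) (U := U) := map_NN99 hn0 a' ha'L hx
        have h7 : Φ σ (a' x) = a (Φ σ x) := by rw [ha'v, h1]
        have h8 : a ((a'.trans a.symm) x) = a' x := AlgEquiv.apply_symm_apply a _
        have e1 := hmQ x hx h4
        have e2 := haQ (Φ σ x) h4 h5
        have e3 := hmQ' (a' x) h6 (by rw [h7]; exact h5)
        have e4 := haQ ((a'.trans a.symm) x) hx' (by rw [h8]; exact h6)
        have e5 : (⟨Φ σ (a' x), by rw [h7]; exact h5⟩ : NN E K0 (ℓ ^ m) (U := U)) = ⟨a (Φ σ x), h5⟩ :=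
          Subtype.ext h7
        have e6 : (⟨a ((a'.trans a.symm) x), by rw [h8]; exact h6⟩ : NN E K0 (ℓ ^ m) (U := U)) =
            ⟨a' x, h6⟩ := Subtype.ext h8
        rw [e5] at e3
        rw [e6] at e4
        exact e1.trans (e2.trans (e3.symm.trans e4.symm))
      have h4 : a.symm (a' w) = w := h3
      have h5 : a' w = a w := by
        rw [AlgEquiv.symm_apply_eq] at h4
        exact h4
      rw [ha'v] at h5
      rw [← h5, h1]
    have htriv : ∀ w : U, UR E K0 ℓ w → a w = w := by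
      intro w hw
      by_contra hne
      exact hQM ⟨a, ha, hcomm, w, hw, hne⟩
    have hid : ∀ x ∈ NN E K0 ℓ (U := U), a x = x := by
      intro x hx
      exact eq_on_NN99 (E := E) (K0 := K0) (a : U →+* U) (RingHom.id U)
        (fun e => a.commutes e) (fun c => ha _ (hKL c)) (fun w hw => htriv w hw) hx
    have hle : NN E K0 ℓ (U := U) ≤ NN E K0 (ℓ ^ m) (U := U) := by
      have h3 : NN E K0 ℓ (U := U) = IntermediateField.adjoin E
        (Set.range (algebraMap K0 U) ∪ {w | UR E K0 ℓ w}) := rfl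
      rw [h3, IntermediateField.adjoin_le_iff]
      rintro y (⟨c, rfl⟩ | hy)
      · exact L0_le99 (hKL c)
      · exact mem_NN99 (UR_l99 ff hm hy)
    refine Place.ext (ValuationSubring.ext _ _ fun x => ?_)
    have hx := hle x.2
    have h3 := hPQ x.1 x.2 hx
    have h4 := hPQ' x.1 x.2 hx
    have h5 := haQ x.1 hx (by rw [hid _ x.2]; exact hx)
    have h6 : (⟨a (x : U), by rw [hid _ x.2]; exact hx⟩ : NN E K0 (ℓ ^ m) (U := U)) = ⟨x, hx⟩ :=
      Subtype.ext (hid _ x.2)
    rw [h6] at h5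
    exact h3.trans (h5.trans h4.symm)

end Pool.Agent.ML
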