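import Pool.Agent.Helper99.ML.FIN
import Pool.Agent.Helper97.M.QMD
import Pool.Agent.SC.H1
import Pool.Agent.SC.VP0

/-!
# Project ML, block QMD: the density of the set `QM`
-/

set_option autoImplicit false
set_option linter.unusedSectionVars false

namespace Pool.Agent.ML

open VC IntermediateField NumberField IsDedekindDomain Pool.Agent.SC
open Pool.Agent.L (Inert L0 MM SamePlace OverV)
open Pool.Agent.LN (Geo Act HasSec GoodCurve IsRam DecPt)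
open Pool.Agent.M (UR NN Moves OverPl inL0)
open Pool.Agent.HG (Pr nm Ctx Gd)
open Pool.Agent.M (root_const99 L0_le99 mem_NN99 eig99 map_NN99 eq_on_NN99 triv99 conj_lev99
  place_ext99 map_L0_99 map_UR99 UR_up99 UR_mul99 UR_inv99 UR_one99 val_one99 act_inv99 act_mul99
  fix_of_const_m99 eq_on_L0_99 nonunit_iff99 exists_const_of_pow)

section

variable {k K0 E U : Type} [Field k] [Field K0] [Field E] [Field U] [Algebra k K0]
  [Algebra k E] [Algebra E U] [Algebra K0 U] {r : U}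

/-- two actions differ on the roots of functions by constants -/
theorem UR_const99 [IsAlgClosed E] [CharZero E] {n₀ : ℕ} {c c' : k}
    {Φ Φ' : (E ≃ₐ[k] E) →* (U ≃+* U)}
    (hA : Act (K0 := K0) n₀ r c Φ) (hA' : Act (K0 := K0) n₀ r c' Φ') (g : E ≃ₐ[k] E) {n : ℕ}
    (hn : 0 < n) {w : U} (hw : UR E K0 n w) : ∃ e : E, Φ g w = algebraMap E U e * Φ' g w := by
  obtain ⟨hw0, f, hf, -⟩ := hw
  have h0 : Φ' g w ≠ 0 := (map_ne_zero _).2 hw0
  have hL : Φ g (f : U) = Φ' g (f : U) := by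
    refine eq_on_L0_99 (Φ g : U →+* U) (Φ' g : U →+* U) (fun e => ?_) (fun c => ?_) f.2
    · exact (hA.const g e).trans (hA'.const g e).symm
    · exact (hA.fixK g c).trans (hA'.fixK g c).symm
  obtain ⟨e, he⟩ := exists_const_of_pow (E := E) hn (u := Φ g w / Φ' g w) (by
    rw [div_pow, ← map_pow, ← map_pow, ← hf, hL]
    refine div_self ?_
    rw [hf, map_pow]
    exact pow_ne_zero _ h0)
  exact ⟨e, by rw [← he, div_mul_cancel₀ _ h0]⟩

end

/-- BLOCK QMD -/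
theorem qMD (hPI : StmtPI) (hW4 : StmtW4) (hQW : StmtQW) (hW2 : StmtW2) : StmtQMD := by
  classical
  intro k K0 E U _ _ _ _ _ _ _ _ _ _ _ _ n₀ ℓ h r hn₀ hℓ hℓn hμ hGeo ε hε
  have hℓ0 : 0 < ℓ := hℓ.pos
  have hcl := hGeo.clE
  have hcE : CharZero E := charZero_of_injective_algebraMap (algebraMap k E).injective
  have halg := hGeo.algE
  have hac : IsAlgClosure k E := ⟨hcl, halg⟩
  have hnor : Normal k E := IsAlgClosure.normal k E
  have hgal : IsGalois k E := ⟨⟩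
  by_cases hex : ∃ (c : k) (Φ : (E ≃ₐ[k] E) →* (U ≃+* U)), c ≠ 0 ∧ Act (K0 := K0) n₀ r c Φ
  swap
  · refine ⟨1, ⊥, le_refl _, inferInstance, inferInstance, fun c Φ hc hA => ?_⟩
    exact absurd ⟨c, Φ, hc, hA⟩ hex
  obtain ⟨c₀, Φ₀, hc₀, hA₀⟩ := hex
  obtain ⟨P, _, _, κ, hsurj, hmul, hzero, hact, htor, hdiv, hfin, hcont⟩ :=
    hPI k K0 E U n₀ ℓ h r hn₀ hℓ hℓn hμ hGeo c₀ Φ₀ hc₀ hA₀
  obtain ⟨K, hK, hqw⟩ := hQW k K0 E U n₀ ℓ h r hn₀ hℓ hℓn hμ hGeo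
  have hL0ff := hGeo.ff
  -- elements of `L0`
  have hURL : ∀ (l : U) (j : ℕ), l ≠ 0 → l ∈ L0 E K0 (U := U) → UR E K0 (ℓ ^ j) l := by
    intro l j hl0 hl
    refine ⟨hl0, ⟨l, hl⟩ ^ ℓ ^ j, rfl, fun Q => ?_⟩
    rw [SCVP.ord_pow hL0ff Q (by
      intro h0
      exact hl0 (congrArg Subtype.val h0))]
    exact Dvd.intro _ rfl
  have hURinv : ∀ (w : U) (n : ℕ), UR E K0 n w → UR E K0 n w⁻¹ := by
    rintro w n ⟨hw0, f, hf, hord⟩
    have hf0 : f ≠ 0 := by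
      rintro rfl
      exact pow_ne_zero n hw0 hf.symm
    refine ⟨inv_ne_zero hw0, f⁻¹, ?_, fun Q => ?_⟩
    · rw [inv_pow, ← hf]
      rfl
    · rw [VC.ord_inv hL0ff Q hf0]
      exact (dvd_neg).2 (hord Q)
  have hURmul : ∀ (w w' : U) (n : ℕ), UR E K0 n w → UR E K0 n w' → UR E K0 n (w * w') := by
    rintro w w' n ⟨hw0, f, hf, hord⟩ ⟨hw0', f', hf', hord'⟩
    have hf0 : f ≠ 0 := by
      rintro rfl
      exact pow_ne_zero n hw0 hf.symm
    have hf0' : f' ≠ 0 := by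
      rintro rfl
      exact pow_ne_zero n hw0' hf'.symm
    refine ⟨mul_ne_zero hw0 hw0', f * f', ?_, fun Q => ?_⟩
    · rw [mul_pow, ← hf, ← hf']
      rfl
    · rw [VC.ord_mul hL0ff Q hf0 hf0']
      exact dvd_add (hord Q) (hord' Q)
  have hκ0 : ∀ l : U, l ≠ 0 → l ∈ L0 E K0 (U := U) → κ l = 0 := fun l h1 h2 =>
    (hzero l 0 (hURL l 0 h1 h2)).2 h2
  have hκinv : ∀ (w : U) (j : ℕ), UR E K0 (ℓ ^ j) w → κ w⁻¹ = - κ w := by
    intro w j hw
    have h1 := hmul w w⁻¹ j j hw (hURinv _ _ hw)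
    rw [mul_inv_cancel₀ hw.1, hκ0 1 one_ne_zero (one_mem _)] at h1
    exact (neg_eq_of_add_eq_zero_right h1.symm).symm
  have hκeq : ∀ (w w' : U) (j : ℕ), UR E K0 (ℓ ^ j) w → UR E K0 (ℓ ^ j) w' →
      (κ w = κ w' ↔ w * w'⁻¹ ∈ L0 E K0 (U := U)) := by
    intro w w' j hw hw'
    rw [← hzero _ j (hURmul _ _ _ hw (hURinv _ _ hw')), hmul _ _ j j hw (hURinv _ _ hw'),
      hκinv w' j hw', ← sub_eq_add_neg, sub_eq_zero]
  have hκpow : ∀ (w : U) (j : ℕ), UR E K0 (ℓ ^ j) w → ∀ i : ℕ, κ (w ^ i) = i • κ w ∧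
      UR E K0 (ℓ ^ j) (w ^ i) := by
    intro w j hw i
    induction i with
    | zero =>
      rw [pow_zero, zero_smul]
      exact ⟨hκ0 1 one_ne_zero (one_mem _), hURL 1 j one_ne_zero (one_mem _)⟩
    | succ i ih =>
      rw [pow_succ, succ_nsmul]
      exact ⟨by rw [hmul _ _ j j ih.2 hw, ih.1], hURmul _ _ _ ih.2 hw⟩
  -- open stabilisers
  have hopen : ∀ x : P, IsOpen {g : E ≃ₐ[k] E | g • x = x} := by
    intro x
    obtain ⟨L, hL, hLx⟩ := hcont x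
    have h1 : IsOpen (L.fixingSubgroup : Set (E ≃ₐ[k] E)) := L.fixingSubgroup_isOpen
    have h2 : L.fixingSubgroup ≤ MulAction.stabilizer (E ≃ₐ[k] E) x := by
      intro g hg
      exact hLx g ((IntermediateField.mem_fixingSubgroup_iff L g).1 hg)
    exact Subgroup.isOpen_mono h2 h1
  have hmemL : ∀ (L : IntermediateField k E), Normal k L → ∀ (g : E ≃ₐ[k] E) (z : E), z ∈ L →
      g z ∈ L := by
    intro L hL g z hz
    have h1 := (IntermediateField.normal_iff_forall_map_le'.1 hL) g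
    exact h1 ⟨z, hz, rfl⟩
  -- elements with finitely many fixed points
  have hdense : ∀ H : Subgroup (E ≃ₐ[k] E), IsOpen (H : Set (E ≃ₐ[k] E)) → ∀ x : E ≃ₐ[k] E,
      ∃ g ∈ H, {p : P | (g * x) • p = p}.Finite := by
    intro H hH x
    obtain ⟨L, hLfd, hLn, hLH⟩ := (krullTopology_mem_nhds_one_iff_of_normal k E (H : Set _)).1
      (hH.mem_nhds H.one_mem)
    obtain ⟨g, hg, T, hT⟩ := hW4 k K0 E U n₀ ℓ h r hn₀ hℓ hℓn hμ hGeo c₀ Φ₀ hc₀ hA₀ L hLfd x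
    refine ⟨g * x⁻¹, hLH ?_, ?_⟩
    · rw [SetLike.mem_coe, IntermediateField.mem_fixingSubgroup_iff]
      intro z hz
      have h1 := hg (x⁻¹ z) (hmemL L hLn x⁻¹ z hz)
      show g (x⁻¹ z) = z
      rw [h1]
      exact x.apply_symm_apply z
    · rw [inv_mul_cancel_right]
      refine (T.finite_toSet.image κ).subset ?_
      intro p hp
      obtain ⟨w, j, hw, rfl⟩ := hsurj p
      have h1 : κ (Φ₀ g w) = κ w := by rw [hact g w j hw]; exact hp
      obtain ⟨t, ht, ht0, htw⟩ := hT w j hw ((hκeq _ _ j (act_UR99 hL0ff hA₀ g hw) hw).1 h1)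
      refine ⟨t, ht, ?_⟩
      have h2 : (w * t⁻¹)⁻¹ ≠ 0 := inv_ne_zero (mul_ne_zero hw.1 (inv_ne_zero ht0))
      have h3 : t = w * (w * t⁻¹)⁻¹ := by
        rw [mul_inv_rev, inv_inv, mul_comm t, ← mul_assoc, mul_inv_cancel₀ hw.1, one_mul]
      have h4 : (w * t⁻¹)⁻¹ ∈ L0 E K0 (U := U) := inv_mem htw
      rw [h3, hmul _ _ j j hw (hURL _ j h2 h4), hκ0 _ h2 h4, add_zero]
  obtain ⟨j, hj, hj2⟩ := hW2 ℓ hℓ (E ≃ₐ[k] E) P htor hdiv hfin hopen hdense ε hε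
  -- the torsion is finite
  have hfinj : ∀ i : ℕ, {p : P | ℓ ^ i • p = 0}.Finite := by
    intro i
    induction i with
    | zero =>
      refine (Set.finite_singleton (0 : P)).subset ?_
      intro p hp
      have h1 : (ℓ ^ 0 : ℕ) • p = 0 := hp
      rw [pow_zero, one_smul] at h1
      exact h1
    | succ i ih =>
      have h1 : {p : P | ℓ ^ (i + 1) • p = 0} ⊆ ⋃ q ∈ {q : P | ℓ ^ i • q = 0},
          {p : P | ℓ • p = q} := by
        intro p hp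
        simp only [Set.mem_iUnion]
        refine ⟨ℓ • p, ?_, rfl⟩
        show ℓ ^ i • (ℓ • p) = 0
        rw [← mul_smul, ← pow_succ]
        exact hp
      refine (ih.biUnion fun q _ => ?_).subset h1
      by_cases hq : ∃ p₀ : P, ℓ • p₀ = q
      · obtain ⟨p₀, hp₀⟩ := hq
        refine (hfin.image fun p => p₀ + p).subset ?_
        intro p hp
        refine ⟨p - p₀, ?_, add_sub_cancel _ _⟩
        show ℓ • (p - p₀) = 0
        rw [smul_sub, hp₀, sub_eq_zero]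
        exact hp
      · refine Set.finite_empty.subset ?_
        intro p hp
        exact hq ⟨p, hp⟩
  have hnhds : (⋂ p ∈ {p : P | ℓ ^ j • p = 0}, {g : E ≃ₐ[k] E | g • p = p}) ∈
      nhds (1 : E ≃ₐ[k] E) := by
    refine (Filter.biInter_mem (hfinj j)).2 fun p _ => (hopen p).mem_nhds ?_
    exact one_smul _ p
  obtain ⟨L, hLfd, hLn, hLS⟩ := (krullTopology_mem_nhds_one_iff_of_normal k E _).1 hnhds
  have hLgal : IsGalois k L := ⟨⟩
  refine ⟨K * j, L, Nat.mul_pos hK hj, hLfd, hLgal, fun c Φ hc hA => ?_⟩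
  have hNn : L.fixingSubgroup.Normal := by
    refine ⟨fun n hn g => ?_⟩
    rw [IntermediateField.mem_fixingSubgroup_iff] at hn ⊢
    intro z hz
    show g (n (g⁻¹ z)) = z
    rw [hn _ (hmemL L hLn g⁻¹ z hz)]
    exact g.apply_symm_apply z
  have hNo : IsOpen (L.fixingSubgroup : Set (E ≃ₐ[k] E)) := L.fixingSubgroup_isOpen
  have h1 := hj2 L.fixingSubgroup hNn hNo (by
    intro g hg p hp
    have h2 := hLS hg
    simp only [Set.mem_iInter] at h2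
    exact h2 p hp)
  have hfinQ : Finite ((E ≃ₐ[k] E) ⧸ L.fixingSubgroup) :=
    Subgroup.quotient_finite_of_isOpen _ hNo
  have hsame : ∀ (σ σ' : E ≃ₐ[k] E), ((σ : (E ≃ₐ[k] E) ⧸ L.fixingSubgroup) = σ') ↔
      ∀ z ∈ L, σ z = σ' z := by
    intro σ σ'
    rw [QuotientGroup.eq, IntermediateField.mem_fixingSubgroup_iff]
    constructor
    · intro h2 z hz
      have h3 : σ⁻¹ (σ' z) = z := h2 z hz
      have h4 := congrArg σ h3
      rw [← h4]
      exact σ.apply_symm_apply _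
    · intro h2 z hz
      show σ⁻¹ (σ' z) = z
      rw [← h2 z hz]
      exact σ.symm_apply_apply z
  -- the two cardinalities
  have hcard1 : Nat.card ((E ≃ₐ[k] E) ⧸ L.fixingSubgroup) ≤ Nat.card (L ≃ₐ[k] L) := by
    have hlift : ∀ τ : L ≃ₐ[k] L, ∃ σ : E ≃ₐ[k] E, ∀ x : L, σ x = τ x := by
      intro τ
      obtain ⟨σ, hσ⟩ := AlgEquiv.restrictNormalHom_surjective (F := k) (K₁ := L) E τ
      refine ⟨σ, fun x => ?_⟩
      rw [← hσ]
      exact (AlgEquiv.restrictNormal_commutes σ L x).symm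
    choose s hs using hlift
    refine Nat.card_le_card_of_surjective (fun τ => (s τ : (E ≃ₐ[k] E) ⧸ L.fixingSubgroup)) ?_
    intro q
    obtain ⟨g, rfl⟩ := QuotientGroup.mk_surjective q
    refine ⟨AlgEquiv.restrictNormalHom L g, ?_⟩
    show ((s _ : (E ≃ₐ[k] E)) : (E ≃ₐ[k] E) ⧸ L.fixingSubgroup) = g
    rw [hsame]
    intro z hz
    rw [show z = ((⟨z, hz⟩ : L) : E) from rfl, hs]
    exact AlgEquiv.restrictNormal_commutes g L ⟨z, hz⟩
  have hcard2 : Nat.card {τ : L ≃ₐ[k] L // ∃ σ : E ≃ₐ[k] E, (∀ x : L, σ x = τ x) ∧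
      QM E K0 ℓ (K * j) (Φ σ)} ≤
      Nat.card {q : (E ≃ₐ[k] E) ⧸ L.fixingSubgroup // ∃ g : E ≃ₐ[k] E,
        (g : (E ≃ₐ[k] E) ⧸ L.fixingSubgroup) = q ∧
        ∃ p : P, ℓ ^ j • p = 0 ∧ ℓ ^ (j - 1) • p ≠ 0 ∧ g • p = p} := by
    have hch : ∀ τ : {τ : L ≃ₐ[k] L // ∃ σ : E ≃ₐ[k] E, (∀ x : L, σ x = τ x) ∧
      QM E K0 ℓ (K * j) (Φ σ)}, ∃ σ : E ≃ₐ[k] E, (∀ x : L, σ x = τ.1 x) ∧
      QM E K0 ℓ (K * j) (Φ σ) := fun τ => τ.2
    choose s hs1 hs2 using hch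
    have hfix : ∀ τ, ∃ p : P, ℓ ^ j • p = 0 ∧ ℓ ^ (j - 1) • p ≠ 0 ∧ s τ • p = p := by
      intro τ
      obtain ⟨w, hw1, hw2, hw3⟩ := hqw c Φ hc hA j (s τ) hj (hs2 τ)
      refine ⟨κ w, ?_, ?_, ?_⟩
      · rw [← ((hκpow w j hw1) (ℓ ^ j)).1]
        obtain ⟨hw0, f, hf, -⟩ := hw1
        refine hκ0 _ (pow_ne_zero _ hw0) ?_
        rw [← hf]
        exact f.2
      · rw [← ((hκpow w j hw1) (ℓ ^ (j - 1))).1, Ne, hzero _ j ((hκpow w j hw1) (ℓ ^ (j - 1))).2]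
        exact hw2
      · rw [← hact _ w j hw1, hκeq _ _ j (act_UR99 hL0ff hA₀ _ hw1) hw1]
        -- `Φ` and `Φ₀` differ by a constant
        obtain ⟨e, he⟩ : ∃ e : E, Φ (s τ) w = algebraMap E U e * Φ₀ (s τ) w :=
          UR_const99 hA hA₀ (s τ) (pow_pos hℓ0 j) hw1
        have he0 : algebraMap E U e ≠ 0 := by
          intro h0
          rw [h0, zero_mul] at he
          exact (map_ne_zero (Φ (s τ))).2 hw1.1 he
        have h2 : Φ₀ (s τ) w * w⁻¹ = (algebraMap E U e)⁻¹ * (Φ (s τ) w * w⁻¹) := by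
          rw [he]
          field_simp
        rw [h2]
        exact mul_mem (inv_mem ((L0 E K0 (U := U)).algebraMap_mem e)) hw3
    refine Nat.card_le_card_of_injective
      (fun τ => ⟨(s τ : (E ≃ₐ[k] E) ⧸ L.fixingSubgroup), s τ, rfl, hfix τ⟩) ?_
    intro τ τ' h2
    have h3 : (s τ : (E ≃ₐ[k] E) ⧸ L.fixingSubgroup) = s τ' := congrArg Subtype.val h2
    rw [hsame] at h3
    apply Subtype.ext
    apply AlgEquiv.ext
    intro z
    apply Subtype.ext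
    rw [← hs1 τ z, ← hs1 τ' z]
    exact h3 z z.2
  calc (Nat.card {τ : L ≃ₐ[k] L // ∃ σ : E ≃ₐ[k] E, (∀ x : L, σ x = τ x) ∧
      QM E K0 ℓ (K * j) (Φ σ)} : ℝ) ≤ _ := Nat.cast_le.2 hcard2
    _ ≤ ε * Nat.card ((E ≃ₐ[k] E) ⧸ L.fixingSubgroup) := h1
    _ ≤ ε * Nat.card (L ≃ₐ[k] L) := mul_le_mul_of_nonneg_left (Nat.cast_le.2 hcard1) hε.le

end Pool.Agent.ML
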